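import Pool.Agent.N139.G00.Local

/-!
# The point in the base locus
-/

namespace Pool.Agent.N139.G00

open Complex Matrix
open scoped Real
open Pool.Agent.N139.Th

/-- coordinates of powers of `rho` -/
def zr (n : ℕ) : ℤ × ℤ := if n % 3 = 0 then (1, 0) else if n % 3 = 1 then (0, 1) else (-1, -1)

theorem rho_pow (n : ℕ) : rho ^ n = ((zr n).1 : ℂ) + ((zr n).2 : ℂ) * rho := by
  have h : rho ^ n = rho ^ (n % 3) := by
    conv_lhs => rw [← Nat.div_add_mod n 3, pow_add, pow_mul, rho_cube, one_pow, one_mul]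
  rw [h]
  have h3 : n % 3 < 3 := Nat.mod_lt _ (by norm_num)
  unfold zr
  interval_cases h4 : n % 3
  · simp
  · simp
  · simp
    linear_combination rho_sq

theorem word_check : ∀ e : Fin 6 → Fin 2, (∀ i, ty e i ≠ 3) →
    2 * (zr ((ty e 0).val + (ty e 1).val)).1 = -(zr (2 + 2 * (ty e 2).val)).1 -
      (zr (2 + 2 * (ty e 3).val)).1 - (zr (2 + 2 * (ty e 4).val)).1 - (zr (2 * (ty e 5).val)).1 ∧
    2 * (zr ((ty e 0).val + (ty e 1).val)).2 = -(zr (2 + 2 * (ty e 2).val)).2 -
      (zr (2 + 2 * (ty e 3).val)).2 - (zr (2 + 2 * (ty e 4).val)).2 -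
      (zr (2 * (ty e 5).val)).2 := by
  decide +kernel

theorem word_cases : ∀ e : Fin 6 → Fin 2, (∀ i, ty e i ≠ 3) ∨
    (ty e 0 = 3 ∧ ty e 1 = 3 ∧ ∀ i, i ≠ 0 → i ≠ 1 → ty e i ≠ 3) ∨
    (∃ l, l ≠ 0 ∧ l ≠ 1 ∧ ty e l = 3) := by
  decide +kernel

theorem word_two : ∀ e : Fin 6 → Fin 2, ¬ (∀ i, ty e i ≠ 3) →
    ∀ i, ∃ l, l ≠ i ∧ ty e l = 3 := by
  decide +kernel

theorem word_identity (e : Fin 6 → Fin 2) (he : ∀ i, ty e i ≠ 3) :
    2 * rho ^ ((ty e 0).val + (ty e 1).val) = -rho ^ 2 * (rho ^ (2 * (ty e 2).val) +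
      rho ^ (2 * (ty e 3).val) + rho ^ (2 * (ty e 4).val)) - rho ^ (2 * (ty e 5).val) := by
  obtain ⟨h1, h2⟩ := word_check e he
  have e1 : -rho ^ 2 * (rho ^ (2 * (ty e 2).val) +
      rho ^ (2 * (ty e 3).val) + rho ^ (2 * (ty e 4).val)) - rho ^ (2 * (ty e 5).val) =
      -rho ^ (2 + 2 * (ty e 2).val) - rho ^ (2 + 2 * (ty e 3).val) -
      rho ^ (2 + 2 * (ty e 4).val) - rho ^ (2 * (ty e 5).val) := by
    rw [pow_add, pow_add, pow_add]
    ring
  rw [e1, rho_pow ((ty e 0).val + (ty e 1).val), rho_pow (2 + 2 * (ty e 2).val),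
    rho_pow (2 + 2 * (ty e 3).val), rho_pow (2 + 2 * (ty e 4).val), rho_pow (2 * (ty e 5).val)]
  have h1' : (2 : ℂ) * ((zr ((ty e 0).val + (ty e 1).val)).1 : ℂ) =
      -((zr (2 + 2 * (ty e 2).val)).1 : ℂ) - ((zr (2 + 2 * (ty e 3).val)).1 : ℂ) -
      ((zr (2 + 2 * (ty e 4).val)).1 : ℂ) - ((zr (2 * (ty e 5).val)).1 : ℂ) := by
    exact_mod_cast h1
  have h2' : (2 : ℂ) * ((zr ((ty e 0).val + (ty e 1).val)).2 : ℂ) =
      -((zr (2 + 2 * (ty e 2).val)).2 : ℂ) - ((zr (2 + 2 * (ty e 3).val)).2 : ℂ) -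
      ((zr (2 + 2 * (ty e 4).val)).2 : ℂ) - ((zr (2 * (ty e 5).val)).2 : ℂ) := by
    exact_mod_cast h2
  linear_combination h1' + rho * h2'

theorem nf_zero (t : Fin 4) (ht : t ≠ 3) : nf t 0 = 1 := by
  rw [nf, if_neg ht, mul_zero, Nn_zero]

theorem nf_three_zero : nf 3 0 = 0 := by
  have h := Mm_neg 0
  rw [neg_zero] at h
  have h2 : (2 : ℂ) * Mm 0 = 0 := by linear_combination h
  have h3 : Mm 0 = 0 := by simpa using h2
  simp [nf, h3]

theorem nf_w0 (t : Fin 4) (ht : t ≠ 3) : nf t w0 = rho ^ t.val * Nn w0 := by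
  rw [nf, if_neg ht]
  fin_cases t
  · simp
  · simpa using Nn_w1
  · simpa using Nn_w2
  · exact absurd rfl ht

/-- directions -/
def dir (v : Fin 6 → ℂ) (s : ℂ) : Fin 6 → ℂ := fun i => v i * s

theorem P_dir_diff (e : Fin 6 → Fin 2) (v : Fin 6 → ℂ) :
    Differentiable ℂ fun s => P e (dir v s) := by
  unfold P dir
  refine Differentiable.fun_finsetProd fun i _ => ?_
  have h := nf_diff (ty e i)
  fun_prop

theorem tay_P (e : Fin 6 → Fin 2) (v : Fin 6 → ℂ) :
    tay (fun s => P e (dir v s)) = ∏ i, tay fun s => nf (ty e i) (v i * s) := by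
  unfold P dir
  refine tay_prod _ (fun i s => nf (ty e i) (v i * s)) fun i => ?_
  have h := nf_diff (ty e i)
  fun_prop

/-- jets for words without odd symbols -/
theorem J_even (e : Fin 6 → Fin 2) (he : ∀ i, ty e i ≠ 3) (v : Fin 6 → ℂ) :
    J (tay fun s => P e (dir v s)) 1 (kap2 * ∑ i, rho ^ (2 * (ty e i).val) * v i ^ 2)
      (kap2 ^ 2 / 2 * ((∑ i, rho ^ (2 * (ty e i).val) * v i ^ 2) ^ 2 -
        2 * ∑ i, (rho ^ (2 * (ty e i).val) * v i ^ 2) ^ 2)) := by
  rw [tay_P]
  have h := J_prod Finset.univ (fun i => tay fun s => nf (ty e i) (v i * s)) _ _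
    (fun i _ => J_nf (ty e i) (he i) (v i))
  convert h using 1
  · rw [Finset.mul_sum]
  · rw [← Finset.mul_sum, Finset.sum_sub_distrib, ← Finset.mul_sum]
    have h2 : ∑ i, (kap2 * (rho ^ (2 * (ty e i).val) * v i ^ 2)) ^ 2 / 2 =
        kap2 ^ 2 / 2 * ∑ i, (rho ^ (2 * (ty e i).val) * v i ^ 2) ^ 2 := by
      rw [Finset.mul_sum]
      exact Finset.sum_congr rfl fun i _ => by ring
    rw [h2]
    ring

/-- jets for words with exactly two odd symbols -/
theorem J_pair (e : Fin 6 → Fin 2) (i l : Fin 6) (hil : i ≠ l) (hi : ty e i = 3) (hl : ty e l = 3)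
    (he : ∀ k, k ≠ i → k ≠ l → ty e k ≠ 3) (v : Fin 6 → ℂ) :
    J (tay fun s => P e (dir v s)) 0 (mm ^ 2 * (v i * v l))
      (mm ^ 2 * (v i * v l) * (kap2 * ∑ k ∈ (Finset.univ.erase i).erase l,
        rho ^ (2 * (ty e k).val) * v k ^ 2)) := by
  rw [tay_P]
  have h := J_prod ((Finset.univ.erase i).erase l) (fun i => tay fun s => nf (ty e i) (v i * s)) _ _
    (fun k hk => J_nf (ty e k) (he k (Finset.ne_of_mem_erase (Finset.mem_of_mem_erase hk))
      (Finset.ne_of_mem_erase hk)) (v k))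
  have h1 : ∏ k, tay (fun s => nf (ty e k) (v k * s)) =
      (tay (fun s => nf (ty e i) (v i * s)) * tay (fun s => nf (ty e l) (v l * s))) *
      ∏ k ∈ (Finset.univ.erase i).erase l, tay (fun s => nf (ty e k) (v k * s)) := by
    rw [mul_assoc, Finset.mul_prod_erase _ (fun k => tay (fun s => nf (ty e k) (v k * s)))
      (Finset.mem_erase.2 ⟨hil.symm, Finset.mem_univ l⟩),
      Finset.mul_prod_erase _ (fun k => tay (fun s => nf (ty e k) (v k * s))) (Finset.mem_univ i)]
  have m0 : tc Mm 0 = 0 := Mm_even 0 (by decide)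
  have m2 : tc Mm 2 = 0 := Mm_even 2 (by decide)
  have m4 : tc Mm 4 = 0 := Mm_even 4 (by decide)
  have h2 : J (tay (fun s => nf (ty e i) (v i * s)) * tay (fun s => nf (ty e l) (v l * s)))
      0 (mm ^ 2 * (v i * v l)) 0 := by
    rw [hi, hl]
    refine ⟨?_, ?_, ?_, ?_, ?_⟩
    · rw [coeff_mul_0]
      simp only [coeff_tay, tc_nf_odd, m0]
      ring
    · rw [coeff_mul_1]
      simp only [coeff_tay, tc_nf_odd, m0]
      ring
    · rw [coeff_mul_2]
      simp only [coeff_tay, tc_nf_odd, m0, m2, mm]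
      ring
    · rw [coeff_mul_3]
      simp only [coeff_tay, tc_nf_odd, m0, m2, Mm_three]
      ring
    · rw [coeff_mul_4]
      simp only [coeff_tay, tc_nf_odd, m0, m2, Mm_three, m4]
      ring
  rw [h1]
  have h3 := J_mul h2 h
  rw [← Finset.mul_sum] at h3
  convert h3 using 1 <;> ring

theorem P_zero_of (e : Fin 6 → Fin 2) (z : Fin 6 → ℂ) (l : Fin 6) (hl : ty e l = 3)
    (hz : z l = 0) : P e z = 0 := by
  unfold P
  refine Finset.prod_eq_zero (Finset.mem_univ l) ?_
  rw [hl, hz, nf_three_zero]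

theorem tc_zero_fun (n : ℕ) : tc (fun _ => 0) n = 0 := by
  simp [tc]

/-- the special point -/
noncomputable def z0 : Fin 6 → ℂ := ![w0, w0, 0, 0, 0, 0]

/-- the base locus statement in normal form -/
theorem base (c : (Fin 6 → Fin 2) → ℂ)
    (H : ∀ v : Fin 6 → ℂ, ∑ e, c e * tc (fun s => P e (dir v s)) 2 = 0) :
    ∑ e, c e * P e z0 = 0 := by
  classical
  have hk := kap_rel.1
  -- single directions
  have h1 : ∀ i : Fin 6, ∑ e, (if (∀ i, ty e i ≠ 3) then c e * rho ^ (2 * (ty e i).val) else 0) = 0 := by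
    intro i
    have h := H (fun k => if k = i then 1 else 0)
    have h2 : ∀ e, c e * tc (fun s => P e (dir (fun k => if k = i then 1 else 0) s)) 2 =
        kap2 * (if (∀ i, ty e i ≠ 3) then c e * rho ^ (2 * (ty e i).val) else 0) := by
      intro e
      by_cases he : ∀ i, ty e i ≠ 3
      · have h3 := (J_even e he (fun k => if k = i then 1 else 0)).2.2.1
        rw [coeff_tay] at h3
        rw [h3, if_pos he]
        simp
        ring
      · obtain ⟨l, hl1, hl2⟩ := word_two e he i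
        have h3 : (fun s => P e (dir (fun k => if k = i then 1 else 0) s)) = fun _ => 0 := by
          funext s
          refine P_zero_of e _ l hl2 ?_
          simp [dir, hl1]
        rw [h3, tc_zero_fun, if_neg he]
        ring
    rw [Finset.sum_congr rfl fun e _ => h2 e, ← Finset.mul_sum] at h
    exact (mul_eq_zero.1 h).resolve_left hk
  -- the diagonal direction
  have h2 : ∑ e, (if (ty e 0 = 3 ∧ ty e 1 = 3 ∧ ∀ i, i ≠ 0 → i ≠ 1 → ty e i ≠ 3) then c e else 0) =
      0 := by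
    have h := H (fun k => if k = 0 ∨ k = 1 then 1 else 0)
    have h2 : ∀ e, c e * tc (fun s => P e (dir (fun k => if k = 0 ∨ k = 1 then 1 else 0) s)) 2 =
        kap2 * (if (∀ i, ty e i ≠ 3) then c e * rho ^ (2 * (ty e 0).val) else 0) +
        kap2 * (if (∀ i, ty e i ≠ 3) then c e * rho ^ (2 * (ty e 1).val) else 0) +
        mm ^ 2 * (if (ty e 0 = 3 ∧ ty e 1 = 3 ∧ ∀ i, i ≠ 0 → i ≠ 1 → ty e i ≠ 3) then c e else 0) := by
      intro e
      by_cases he : ∀ i, ty e i ≠ 3
      · have h3 := (J_even e he (fun k => if k = 0 ∨ k = 1 then 1 else 0)).2.2.1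
        rw [coeff_tay] at h3
        rw [h3, if_pos he, if_pos he, if_neg (fun hh => he 0 hh.1)]
        simp [Fin.sum_univ_six]
        ring
      · rw [if_neg he, if_neg he]
        by_cases ho : ty e 0 = 3 ∧ ty e 1 = 3 ∧ ∀ i, i ≠ 0 → i ≠ 1 → ty e i ≠ 3
        · have h3 := (J_pair e 0 1 (by decide) ho.1 ho.2.1 ho.2.2
            (fun k => if k = 0 ∨ k = 1 then 1 else 0)).2.2.1
          rw [coeff_tay] at h3
          rw [h3, if_pos ho]
          simp
          ring
        · obtain ⟨l, hl0, hl1, hl2⟩ := ((word_cases e).resolve_left he).resolve_left ho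
          have h3 : (fun s => P e (dir (fun k => if k = 0 ∨ k = 1 then 1 else 0) s)) =
              fun _ => 0 := by
            funext s
            refine P_zero_of e _ l hl2 ?_
            simp [dir, hl0, hl1]
          rw [h3, tc_zero_fun, if_neg ho]
          ring
    rw [Finset.sum_congr rfl fun e _ => h2 e, Finset.sum_add_distrib, Finset.sum_add_distrib,
      ← Finset.mul_sum, ← Finset.mul_sum, ← Finset.mul_sum, h1 0, h1 1] at h
    have h3 : mm ^ 2 * ∑ e, (if (ty e 0 = 3 ∧ ty e 1 = 3 ∧ ∀ i, i ≠ 0 → i ≠ 1 → ty e i ≠ 3)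
        then c e else 0) = 0 := by
      linear_combination h
    exact (mul_eq_zero.1 h3).resolve_left (pow_ne_zero 2 mm_ne)
  -- the value
  have h3 : ∀ e, 2 * (c e * P e z0) = Nn w0 ^ 2 *
      (-rho ^ 2 * ((if (∀ i, ty e i ≠ 3) then c e * rho ^ (2 * (ty e 2).val) else 0) +
        (if (∀ i, ty e i ≠ 3) then c e * rho ^ (2 * (ty e 3).val) else 0) +
        (if (∀ i, ty e i ≠ 3) then c e * rho ^ (2 * (ty e 4).val) else 0)) -
        (if (∀ i, ty e i ≠ 3) then c e * rho ^ (2 * (ty e 5).val) else 0)) +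
      2 * Mm w0 ^ 2 * (if (ty e 0 = 3 ∧ ty e 1 = 3 ∧ ∀ i, i ≠ 0 → i ≠ 1 → ty e i ≠ 3)
        then c e else 0) := by
    intro e
    by_cases he : ∀ i, ty e i ≠ 3
    · simp only [if_pos he]
      rw [if_neg (fun hh => he 0 hh.1)]
      have hP : P e z0 = rho ^ ((ty e 0).val + (ty e 1).val) * Nn w0 ^ 2 := by
        unfold P z0
        rw [Fin.prod_univ_six]
        simp only [Matrix.cons_val]
        rw [nf_w0 _ (he 0), nf_w0 _ (he 1), nf_zero _ (he 2), nf_zero _ (he 3), nf_zero _ (he 4),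
          nf_zero _ (he 5), pow_add]
        ring
      rw [hP]
      linear_combination (c e * Nn w0 ^ 2) * word_identity e he
    · simp only [if_neg he]
      by_cases ho : ty e 0 = 3 ∧ ty e 1 = 3 ∧ ∀ i, i ≠ 0 → i ≠ 1 → ty e i ≠ 3
      · rw [if_pos ho]
        have hP : P e z0 = Mm w0 ^ 2 := by
          unfold P z0
          rw [Fin.prod_univ_six]
          simp only [Matrix.cons_val]
          rw [ho.1, ho.2.1, nf_zero _ (ho.2.2 2 (by decide) (by decide)),
            nf_zero _ (ho.2.2 3 (by decide) (by decide)),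
            nf_zero _ (ho.2.2 4 (by decide) (by decide)),
            nf_zero _ (ho.2.2 5 (by decide) (by decide))]
          simp only [nf, if_true]
          ring
        rw [hP]
        ring
      · rw [if_neg ho]
        obtain ⟨l, hl0, hl1, hl2⟩ := ((word_cases e).resolve_left he).resolve_left ho
        have hP : P e z0 = 0 := by
          refine P_zero_of e _ l hl2 ?_
          fin_cases l
          · exact absurd rfl hl0
          · exact absurd rfl hl1
          all_goals rfl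
        rw [hP]
        ring
  have h4 : 2 * ∑ e, c e * P e z0 = 0 := by
    rw [Finset.mul_sum, Finset.sum_congr rfl fun e _ => h3 e, Finset.sum_add_distrib,
      ← Finset.mul_sum, ← Finset.mul_sum, h2, Finset.sum_sub_distrib, ← Finset.mul_sum,
      Finset.sum_add_distrib, Finset.sum_add_distrib, h1 2, h1 3, h1 4, h1 5]
    ring
  simpa using h4

end Pool.Agent.N139.G00
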