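import Pool.Agent.N139.G00.Sq

/-!
# The derivative of the odd theta function at zero
-/

namespace Pool.Agent.N139.G00

open Complex
open scoped Real
open Pool.Agent.N139.Th

theorem term_norm (k : ℕ) : ‖jacobiTheta₂_term k ((rho + 1) / 2) rho‖ =
    Real.exp (-π * (√3 / 2)) ^ (k * (k + 1)) := by
  rw [norm_jacobiTheta₂_term, ← Real.exp_nat_mul]
  congr 1
  simp [rho]
  ring

theorem term_bound (k : ℕ) : (2 * ((k : ℝ) + 1) + 1) *
    Real.exp (-π * (√3 / 2)) ^ ((k + 1) * ((k + 1) + 1)) ≤ (1 / 3) ^ (k + 1) := by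
  have h0 : 0 < Real.exp (-π * (√3 / 2)) := Real.exp_pos _
  have h1 : Real.exp (-π * (√3 / 2)) ^ ((k + 1) * ((k + 1) + 1)) ≤ (1 / 3) ^ (2 * (k + 1)) := by
    calc Real.exp (-π * (√3 / 2)) ^ ((k + 1) * ((k + 1) + 1))
        ≤ (1 / 3 : ℝ) ^ ((k + 1) * ((k + 1) + 1)) := by
          exact pow_le_pow_left₀ h0.le norm_lt.le _
      _ ≤ (1 / 3) ^ (2 * (k + 1)) := by
          apply pow_le_pow_of_le_one (by norm_num) (by norm_num)
          nlinarith
  have h2 : 2 * ((k : ℝ) + 1) + 1 ≤ 3 ^ (k + 1) := by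
    induction k with
    | zero => norm_num
    | succ n ih =>
      have h3 := ih (by
        calc Real.exp (-π * (√3 / 2)) ^ ((n + 1) * ((n + 1) + 1))
            ≤ (1 / 3 : ℝ) ^ ((n + 1) * ((n + 1) + 1)) := by
              exact pow_le_pow_left₀ h0.le norm_lt.le _
          _ ≤ (1 / 3) ^ (2 * (n + 1)) := by
              apply pow_le_pow_of_le_one (by norm_num) (by norm_num)
              nlinarith)
      rw [pow_succ]
      push_cast
      have : (0 : ℝ) ≤ n := Nat.cast_nonneg n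
      nlinarith
  calc (2 * ((k : ℝ) + 1) + 1) * Real.exp (-π * (√3 / 2)) ^ ((k + 1) * ((k + 1) + 1))
      ≤ 3 ^ (k + 1) * (1 / 3) ^ (2 * (k + 1)) := by
        apply mul_le_mul h2 h1 (by positivity) (by positivity)
    _ = (1 / 3) ^ (k + 1) := by
        rw [pow_mul, ← mul_pow]
        norm_num

theorem jt'_ne : jacobiTheta₂' ((rho + 1) / 2) rho ≠ 0 := by
  have h := hasSum_jacobiTheta₂'_term ((rho + 1) / 2) rho_im
  have h1 := h.nat_add_neg_add_one
  have hg : ∀ k : ℕ, jacobiTheta₂'_term (k : ℤ) ((rho + 1) / 2) rho +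
      jacobiTheta₂'_term (-((k : ℤ) + 1)) ((rho + 1) / 2) rho =
      2 * π * I * (2 * k + 1) * jacobiTheta₂_term (k : ℤ) ((rho + 1) / 2) rho := by
    intro k
    unfold jacobiTheta₂'_term
    have h2 : jacobiTheta₂_term (-((k : ℤ) + 1)) ((rho + 1) / 2) rho =
        -jacobiTheta₂_term (k : ℤ) ((rho + 1) / 2) rho := by
      unfold jacobiTheta₂_term
      have h3 : 2 * ↑π * I * ((-((k : ℤ) + 1) : ℤ) : ℂ) * ((rho + 1) / 2) +
          ↑π * I * ((-((k : ℤ) + 1) : ℤ) : ℂ) ^ 2 * rho =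
          (2 * ↑π * I * ((k : ℤ) : ℂ) * ((rho + 1) / 2) + ↑π * I * ((k : ℤ) : ℂ) ^ 2 * rho) +
          π * I + ((-((k : ℤ) + 1) : ℤ) : ℂ) * (2 * π * I) := by
        push_cast
        ring
      rw [h3, Complex.exp_add, Complex.exp_int_mul_two_pi_mul_I, mul_one, Complex.exp_add,
        Complex.exp_pi_mul_I]
      ring
    rw [h2]
    push_cast
    ring
  have h4 : HasSum (fun k : ℕ => 2 * π * I * (2 * k + 1) *
      jacobiTheta₂_term (k : ℤ) ((rho + 1) / 2) rho) (jacobiTheta₂' ((rho + 1) / 2) rho) := by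
    rw [← funext hg]
    exact h1
  intro h0
  rw [h0] at h4
  have h5 := (hasSum_nat_add_iff' 1).2 h4
  have h6 : HasSum (fun k : ℕ => 2 * π * (1 / 3 : ℝ) ^ (k + 1)) (2 * π * (1 / 3 * (1 - 1 / 3)⁻¹)) := by
    have h7 := (hasSum_geometric_of_lt_one (r := (1 / 3 : ℝ)) (by norm_num) (by norm_num)).mul_left
      (1 / 3)
    have h8 : (fun k : ℕ => 2 * π * (1 / 3 : ℝ) ^ (k + 1)) =
        fun k : ℕ => 2 * π * (1 / 3 * (1 / 3 : ℝ) ^ k) := by
      funext k
      rw [pow_succ]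
      ring
    rw [h8]
    exact h7.mul_left (2 * π)
  have h8 := h5.norm_le_of_bounded h6 ?_
  · rw [Finset.sum_range_one] at h8
    have h9 : jacobiTheta₂_term ((0 : ℕ) : ℤ) ((rho + 1) / 2) rho = 1 := by
      unfold jacobiTheta₂_term
      simp
    rw [h9] at h8
    simp at h8
    have := Real.pi_pos
    rw [abs_of_pos this] at h8
    nlinarith
  · intro k
    have h10 := term_norm (k + 1)
    have h11 := term_bound k
    rw [norm_mul, h10]
    have h12 : ‖(2 * π * I * (2 * ((k + 1 : ℕ) : ℂ) + 1) : ℂ)‖ = 2 * π * (2 * ((k : ℝ) + 1) + 1) := by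
      have : (2 * π * I * (2 * ((k + 1 : ℕ) : ℂ) + 1) : ℂ) =
          ((2 * π * (2 * ((k : ℝ) + 1) + 1) : ℝ) : ℂ) * I := by
        push_cast
        ring
      rw [this, norm_mul, Complex.norm_I, mul_one, Complex.norm_real, Real.norm_eq_abs, abs_of_pos]
      have := Real.pi_pos
      positivity
    rw [h12, mul_assoc]
    have := Real.pi_pos
    exact mul_le_mul_of_nonneg_left h11 (by positivity)

theorem Mm_deriv : deriv Mm 0 ≠ 0 := by
  have h1 : HasDerivAt (fun w : ℂ => jacobiTheta₂ w rho) (jacobiTheta₂' ((rho + 1) / 2) rho)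
      ((rho + 1) / 2) := hasDerivAt_jacobiTheta₂_fst _ rho_im
  have h2 : HasDerivAt (fun z : ℂ => (rho + 1) / 2 + 2 * z) 2 0 := by
    have := ((hasDerivAt_id (0 : ℂ)).const_mul 2).const_add ((rho + 1) / 2)
    simpa using this
  have h3 : HasDerivAt (fun z : ℂ => jacobiTheta₂ ((rho + 1) / 2 + 2 * z) rho)
      (jacobiTheta₂' ((rho + 1) / 2) rho * 2) 0 := by
    have h4 : HasDerivAt (fun w : ℂ => jacobiTheta₂ w rho) (jacobiTheta₂' ((rho + 1) / 2) rho)
      ((fun z : ℂ => (rho + 1) / 2 + 2 * z) 0) := by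
      simpa using h1
    exact HasDerivAt.comp (0 : ℂ) h4 h2
  have h5 : Mm = fun z => cexp (Q * z ^ 2 + (π * I * rho / 4 + 2 * π * I * z)) *
      jacobiTheta₂ ((rho + 1) / 2 + 2 * z) rho := by
    funext z
    rw [Mm, ph_eq, ← mul_assoc, ← Complex.exp_add]
    congr 1
    · congr 1
      push_cast
      ring
    · congr 1
      push_cast
      ring
  have h6 : DifferentiableAt ℂ (fun z : ℂ => cexp (Q * z ^ 2 + (π * I * rho / 4 + 2 * π * I * z))) 0 := by
    fun_prop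
  have h7 := h6.hasDerivAt.mul h3
  have h8 := h7.deriv
  have h9 : jacobiTheta₂ ((rho + 1) / 2 + 2 * 0) rho = 0 := by
    rw [mul_zero, add_zero, jt_zero]
  rw [h9, mul_zero, zero_add] at h8
  intro h10
  rw [h5] at h10
  rw [← Pi.mul_def, h8] at h10
  exact mul_ne_zero (Complex.exp_ne_zero _) (mul_ne_zero jt'_ne (by norm_num)) h10

end Pool.Agent.N139.G00
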