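import Pool.Agent.N139.G00.Der
import Pool.Agent.N139.Th.Noneq

/-!
# Factorisation of the second order theta functions
-/

namespace Pool.Agent.N139.G00

open Complex Matrix
open scoped Real
open Pool.Agent.N139.Th

theorem theta_fact {g : ℕ} (s : Fin g → ℂ) (hs : ∀ i, 0 < (s i).im)
    (U : Matrix (Fin g) (Fin g) ℤ) (a : Fin g → ℤ) (z : Fin g → ℂ) :
    ∑' n : Fin g → ℤ, cexp (2 * π * I * ((fun i => (n i : ℂ) + (a i : ℂ) / 2) ⬝ᵥ
      (tmat s U *ᵥ (fun i => (n i : ℂ) + (a i : ℂ) / 2))) +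
      4 * π * I * ∑ i, ((n i : ℂ) + (a i : ℂ) / 2) * z i) =
    cexp (π * I / 2 * ((∑ i, ∑ j, a i * U i j * a j : ℤ) : ℂ)) *
      ∏ i, ph (s i) (a i) (lin U a i) (z i) := by
  have h := (tsum_prod_fin g (fun i m => cexp (π * I * s i * ((m : ℂ) + (a i : ℂ) / 2) ^ 2 +
    π * I * m * (lin U a i : ℤ) + 4 * π * I * ((m : ℂ) + (a i : ℂ) / 2) * z i))
    (fun i => ph_summable _ (hs i) _ _ _)).2
  unfold ph
  rw [← h, ← tsum_mul_left]
  refine tsum_congr fun n => ?_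
  rw [Complex.exp_add, tmat_exp s U a n, mul_assoc, Finset.mul_sum, Complex.exp_sum,
    ← Finset.prod_mul_distrib]
  congr 1
  refine Finset.prod_congr rfl fun i _ => ?_
  rw [← Complex.exp_add]
  congr 1
  ring

/-- the normal forms of the one-dimensional functions -/
noncomputable def nf (t : Fin 4) (z : ℂ) : ℂ :=
  if t = 3 then Mm z else Nn (rho ^ t.val * z)

/-- the type -/
def tyf (p a b : ℤ) : Fin 4 :=
  if a = 1 then (if b % 2 = 1 then 3 else 2) else (if (b + p) % 2 = 1 then 1 else 0)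

theorem nf_diff (t : Fin 4) : Differentiable ℂ (nf t) := by
  unfold nf
  by_cases h : t = 3
  · simp only [h, if_true]
    exact Mm_diff
  · simp only [h, if_false]
    have := Nn_diff
    fun_prop

theorem ph_form (p a b : ℤ) (hp : p = 0 ∨ p = 1) (ha : a = 0 ∨ a = 1) :
    ∃ C : ℂ, C ≠ 0 ∧ ∀ z, ph (rho + p) a b z = C * cexp (-(Q * z ^ 2)) * nf (tyf p a b) z := by
  have h0 := ph000_ne
  have h1 : ph rho 0 1 0 ≠ 0 := by
    rw [ph010]
    exact mul_ne_zero zeta_ne h0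
  have h2 : ph rho 1 0 0 ≠ 0 := by
    rw [ph100]
    exact mul_ne_zero (inv_ne_zero zeta_ne) h0
  have n0 : ∀ z, nf 0 z = Nn z := fun z => by simp [nf]
  have n1 : ∀ z, nf 1 z = Nn (rho * z) := fun z => by simp [nf]
  have n2 : ∀ z, nf 2 z = Nn (rho ^ 2 * z) := fun z => by simp [nf]
  have n3 : ∀ z, nf 3 z = Mm z := fun z => by simp [nf]
  have hz : zeta ^ 3 ≠ 0 := pow_ne_zero _ zeta_ne
  have hb : b % 2 = 0 ∨ b % 2 = 1 := Int.emod_two_eq_zero_or_one b
  rcases hp with rfl | rfl <;> rcases ha with rfl | rfl <;> rcases hb with hb | hb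
  · refine ⟨_, h0, fun z => ?_⟩
    rw [Int.cast_zero, add_zero, ph_mod, hb]
    simp only [tyf, hb, add_zero, zero_ne_one, if_false]
    rw [n0, ph00_N]
  · refine ⟨_, h1, fun z => ?_⟩
    rw [Int.cast_zero, add_zero, ph_mod, hb]
    simp only [tyf, hb, add_zero, zero_ne_one, if_false, if_true]
    rw [n1, ph01_N]
  · refine ⟨_, h2, fun z => ?_⟩
    rw [Int.cast_zero, add_zero, ph_mod, hb]
    simp only [tyf, hb, zero_ne_one, if_false, if_true]
    rw [n2, ph10_N]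
  · refine ⟨1, one_ne_zero, fun z => ?_⟩
    rw [Int.cast_zero, add_zero, ph_mod, hb]
    simp only [tyf, hb, if_true]
    rw [n3, ph11_M, one_mul]
  · refine ⟨_, h1, fun z => ?_⟩
    have e : (b + 1) % 2 = 1 := by omega
    rw [Int.cast_one, ph1_0, ph_mod, e]
    simp only [tyf, e, zero_ne_one, if_false, if_true]
    rw [n1, ph01_N]
  · refine ⟨_, h0, fun z => ?_⟩
    have e : (b + 1) % 2 = 0 := by omega
    rw [Int.cast_one, ph1_0, ph_mod, e]
    simp only [tyf, e, zero_ne_one, if_false]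
    rw [n0, ph00_N]
  · refine ⟨_, mul_ne_zero hz h2, fun z => ?_⟩
    rw [Int.cast_one, ph1_1, ph_mod, hb]
    simp only [tyf, hb, zero_ne_one, if_false, if_true]
    rw [n2, ph10_N]
    ring
  · refine ⟨_, hz, fun z => ?_⟩
    rw [Int.cast_one, ph1_1, ph_mod, hb]
    simp only [tyf, hb, if_true]
    rw [n3, ph11_M]
    ring

/-- the diagonal -/
noncomputable def s6 (i : Fin 6) : ℂ := rho + ((p6 i : ℤ) : ℂ)

theorem s6_im (i : Fin 6) : 0 < (s6 i).im := by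
  simp only [s6, Complex.add_im, Complex.intCast_im, add_zero]
  exact rho_im

/-- the period matrix -/
noncomputable def T : Matrix (Fin 6) (Fin 6) ℂ := tmat s6 U6

/-- types of a word -/
def ty (e : Fin 6 → Fin 2) (i : Fin 6) : Fin 4 :=
  tyf (p6 i) ((e i).val : ℤ) (linN e i : ℤ)

theorem lin_U6 (e : Fin 6 → Fin 2) (i : Fin 6) :
    lin U6 (fun i => ((e i).val : ℤ)) i = (linN e i : ℤ) := by
  rw [lin, linN]
  push_cast
  rfl

/-- the product of normal forms -/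
noncomputable def P (e : Fin 6 → Fin 2) (z : Fin 6 → ℂ) : ℂ := ∏ i, nf (ty e i) (z i)

theorem theta_form (e : Fin 6 → Fin 2) : ∃ C : ℂ, C ≠ 0 ∧ ∀ z : Fin 6 → ℂ,
    ∑' n : Fin 6 → ℤ, cexp (2 * π * I * ((fun i => (n i : ℂ) + (((e i).val : ℤ) : ℂ) / 2) ⬝ᵥ
      (T *ᵥ (fun i => (n i : ℂ) + (((e i).val : ℤ) : ℂ) / 2))) +
      4 * π * I * ∑ i, ((n i : ℂ) + (((e i).val : ℤ) : ℂ) / 2) * z i) =
    C * cexp (-(Q * ∑ i, z i ^ 2)) * P e z := by
  have h : ∀ i, ∃ C : ℂ, C ≠ 0 ∧ ∀ z, ph (s6 i) ((e i).val : ℤ) (lin U6 (fun i => ((e i).val : ℤ)) i) z =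
      C * cexp (-(Q * z ^ 2)) * nf (ty e i) z := by
    intro i
    rw [lin_U6]
    exact ph_form _ _ _ (p6_cases i) (a_cases _)
  choose C hC1 hC2 using h
  refine ⟨cexp (π * I / 2 * ((∑ i, ∑ j, ((e i).val : ℤ) * U6 i j * ((e j).val : ℤ) : ℤ) : ℂ)) *
    ∏ i, C i, mul_ne_zero (Complex.exp_ne_zero _) (Finset.prod_ne_zero_iff.2 fun i _ => hC1 i),
    fun z => ?_⟩
  have h1 := theta_fact s6 s6_im U6 (fun i => ((e i).val : ℤ)) z
  unfold T
  rw [h1]
  have h2 : ∏ i, ph (s6 i) ((e i).val : ℤ) (lin U6 (fun i => ((e i).val : ℤ)) i) (z i) =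
      (∏ i, C i) * cexp (-(Q * ∑ i, z i ^ 2)) * P e z := by
    rw [Finset.prod_congr rfl fun i _ => hC2 i (z i), Finset.prod_mul_distrib,
      Finset.prod_mul_distrib, P]
    congr 2
    rw [← Complex.exp_sum]
    congr 1
    rw [Finset.mul_sum, Finset.sum_neg_distrib]
  rw [h2]
  ring

end Pool.Agent.N139.G00
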