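import Pool.Agent.N139.G00.Base

/-!
# The final system of equations
-/

namespace Pool.Agent.N139.G00

open Complex
open Pool.Agent.N139.Th

theorem final (w0 w1 w2 w3 w4 w5 : ℂ)
    (E0 : (1 * w0 + 1 * w1 + 1 * w2 + rho ^ 2 * w3 + rho ^ 2 * w4 + rho ^ 2 * w5) ^ 2 = 2 * ((1 * w0) ^ 2 + (1 * w1) ^ 2 + (1 * w2) ^ 2 + (rho ^ 2 * w3) ^ 2 + (rho ^ 2 * w4) ^ 2 + (rho ^ 2 * w5) ^ 2))
    (E1 : (1 * w0 + 1 * w1 + rho ^ 2 * w2 + 1 * w3 + 1 * w4 + rho * w5) ^ 2 = 2 * ((1 * w0) ^ 2 + (1 * w1) ^ 2 + (rho ^ 2 * w2) ^ 2 + (1 * w3) ^ 2 + (1 * w4) ^ 2 + (rho * w5) ^ 2))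
    (E2 : (1 * w0 + rho ^ 2 * w1 + 1 * w2 + 1 * w3 + rho * w4 + 1 * w5) ^ 2 = 2 * ((1 * w0) ^ 2 + (rho ^ 2 * w1) ^ 2 + (1 * w2) ^ 2 + (1 * w3) ^ 2 + (rho * w4) ^ 2 + (1 * w5) ^ 2))
    (E3 : (rho ^ 2 * w0 + 1 * w1 + 1 * w2 + rho * w3 + 1 * w4 + 1 * w5) ^ 2 = 2 * ((rho ^ 2 * w0) ^ 2 + (1 * w1) ^ 2 + (1 * w2) ^ 2 + (rho * w3) ^ 2 + (1 * w4) ^ 2 + (1 * w5) ^ 2))
    (E4 : (rho ^ 2 * w0 + 1 * w1 + rho * w2 + 1 * w3 + rho * w4 + rho ^ 2 * w5) ^ 2 = 2 * ((rho ^ 2 * w0) ^ 2 + (1 * w1) ^ 2 + (rho * w2) ^ 2 + (1 * w3) ^ 2 + (rho * w4) ^ 2 + (rho ^ 2 * w5) ^ 2))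
    (E5 : (1 * w0 + rho ^ 2 * w1 + rho * w2 + rho * w3 + 1 * w4 + rho ^ 2 * w5) ^ 2 = 2 * ((1 * w0) ^ 2 + (rho ^ 2 * w1) ^ 2 + (rho * w2) ^ 2 + (rho * w3) ^ 2 + (1 * w4) ^ 2 + (rho ^ 2 * w5) ^ 2))
    (P01 : w0 * w1 * (1 * w2 + 1 * w3 + 1 * w4 + rho ^ 2 * w5) = 0)
    (P02 : w0 * w2 * (1 * w1 + 1 * w3 + rho ^ 2 * w4 + 1 * w5) = 0)
    (P03 : w0 * w3 * (rho ^ 2 * w1 + rho ^ 2 * w2 + 1 * w4 + 1 * w5) = 0)
    (P04 : w0 * w4 * (1 * w1 + rho ^ 2 * w2 + rho * w3 + rho ^ 2 * w5) = 0)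
    (P05 : w0 * w5 * (rho ^ 2 * w1 + 1 * w2 + rho * w3 + rho ^ 2 * w4) = 0)
    (P12 : w1 * w2 * (1 * w0 + rho ^ 2 * w3 + 1 * w4 + 1 * w5) = 0)
    (P13 : w1 * w3 * (1 * w0 + rho ^ 2 * w2 + rho * w4 + rho ^ 2 * w5) = 0)
    (P14 : w1 * w4 * (rho ^ 2 * w0 + rho ^ 2 * w2 + 1 * w3 + 1 * w5) = 0)
    (P15 : w1 * w5 * (rho ^ 2 * w0 + 1 * w2 + rho ^ 2 * w3 + rho * w4) = 0)
    (P23 : w2 * w3 * (1 * w0 + rho ^ 2 * w1 + rho ^ 2 * w4 + rho * w5) = 0)
    (P24 : w2 * w4 * (rho ^ 2 * w0 + 1 * w1 + rho ^ 2 * w3 + rho * w5) = 0)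
    (P25 : w2 * w5 * (rho ^ 2 * w0 + rho ^ 2 * w1 + 1 * w3 + 1 * w4) = 0)
    (P34 : w3 * w4 * (rho ^ 2 * w0 + rho ^ 2 * w1 + 1 * w2 + rho ^ 2 * w5) = 0)
    (P35 : w3 * w5 * (rho ^ 2 * w0 + 1 * w1 + rho ^ 2 * w2 + rho ^ 2 * w4) = 0)
    (P45 : w4 * w5 * (1 * w0 + rho ^ 2 * w1 + rho ^ 2 * w2 + rho ^ 2 * w3) = 0) :
    w0 = 0 ∧ w1 = 0 ∧ w2 = 0 ∧ w3 = 0 ∧ w4 = 0 ∧ w5 = 0 := by
  rcases eq_or_ne w0 0 with rfl | h0 <;> rcases eq_or_ne w1 0 with rfl | h1 <;>
    rcases eq_or_ne w2 0 with rfl | h2 <;> rcases eq_or_ne w3 0 with rfl | h3 <;>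
    rcases eq_or_ne w4 0 with rfl | h4 <;> rcases eq_or_ne w5 0 with rfl | h5
  · exact ⟨rfl, rfl, rfl, rfl, rfl, rfl⟩
  · exfalso
    apply h5
    refine pow_eq_zero_iff (two_ne_zero) |>.1 ?_
    linear_combination -E2
  · exfalso
    apply h4
    refine pow_eq_zero_iff (two_ne_zero) |>.1 ?_
    linear_combination -E1
  · exfalso
    have q1 : rho ^ 2 * w4 - rho ^ 2 * w5 = 0 := by
      refine pow_eq_zero_iff (two_ne_zero) |>.1 ?_
      linear_combination -E0
    have q2 : rho * w4 - 1 * w5 = 0 := by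
      refine pow_eq_zero_iff (two_ne_zero) |>.1 ?_
      linear_combination -E2
    apply h4
    linear_combination (-1 / 3 + (1 / 3) * rho) * q1 + (-2 / 3 + (-1 / 3) * rho) * q2 + (((1) + (-1 / 3) * rho) * w4 + ((-2 / 3) + (1 / 3) * rho) * w5) * rho_sq
  · exfalso
    apply h3
    refine pow_eq_zero_iff (two_ne_zero) |>.1 ?_
    linear_combination -E1
  · exfalso
    have q1 : rho ^ 2 * w3 - rho ^ 2 * w5 = 0 := by
      refine pow_eq_zero_iff (two_ne_zero) |>.1 ?_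
      linear_combination -E0
    have q2 : rho * w3 - 1 * w5 = 0 := by
      refine pow_eq_zero_iff (two_ne_zero) |>.1 ?_
      linear_combination -E3
    apply h3
    linear_combination (-1 / 3 + (1 / 3) * rho) * q1 + (-2 / 3 + (-1 / 3) * rho) * q2 + (((1) + (-1 / 3) * rho) * w3 + ((-2 / 3) + (1 / 3) * rho) * w5) * rho_sq
  · exfalso
    have q1 : rho ^ 2 * w3 - rho ^ 2 * w4 = 0 := by
      refine pow_eq_zero_iff (two_ne_zero) |>.1 ?_
      linear_combination -E0
    have q2 : rho * w3 - 1 * w4 = 0 := by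
      refine pow_eq_zero_iff (two_ne_zero) |>.1 ?_
      linear_combination -E3
    apply h3
    linear_combination (-1 / 3 + (1 / 3) * rho) * q1 + (-2 / 3 + (-1 / 3) * rho) * q2 + (((1) + (-1 / 3) * rho) * w3 + ((-2 / 3) + (1 / 3) * rho) * w4) * rho_sq
  · exfalso
    have q45 := (mul_eq_zero.1 P45).resolve_left (mul_ne_zero h4 h5)
    apply h3
    linear_combination (1 * rho) * q45 +
      (((1) + (-1) * rho) * w3) * rho_sq
  · exfalso
    apply h2
    refine pow_eq_zero_iff (two_ne_zero) |>.1 ?_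
    linear_combination -E0
  · exfalso
    have q1 : 1 * w2 - 1 * w5 = 0 := by
      refine pow_eq_zero_iff (two_ne_zero) |>.1 ?_
      linear_combination -E2
    have q2 : 1 * w2 - rho ^ 2 * w5 = 0 := by
      refine pow_eq_zero_iff (two_ne_zero) |>.1 ?_
      linear_combination -E0
    apply h2
    linear_combination (2 / 3 + (1 / 3) * rho) * q1 + (1 / 3 + (-1 / 3) * rho) * q2 + ((0) * w2 + ((2 / 3) + (-1 / 3) * rho) * w5) * rho_sq
  · exfalso
    have q1 : 1 * w2 - 1 * w4 = 0 := by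
      refine pow_eq_zero_iff (two_ne_zero) |>.1 ?_
      linear_combination -E3
    have q2 : 1 * w2 - rho ^ 2 * w4 = 0 := by
      refine pow_eq_zero_iff (two_ne_zero) |>.1 ?_
      linear_combination -E0
    apply h2
    linear_combination (2 / 3 + (1 / 3) * rho) * q1 + (1 / 3 + (-1 / 3) * rho) * q2 + ((0) * w2 + ((2 / 3) + (-1 / 3) * rho) * w4) * rho_sq
  · exfalso
    have q45 := (mul_eq_zero.1 P45).resolve_left (mul_ne_zero h4 h5)
    apply h2
    linear_combination (1 * rho) * q45 +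
      (((1) + (-1) * rho) * w2) * rho_sq
  · exfalso
    have q1 : 1 * w2 - 1 * w3 = 0 := by
      refine pow_eq_zero_iff (two_ne_zero) |>.1 ?_
      linear_combination -E2
    have q2 : 1 * w2 - rho ^ 2 * w3 = 0 := by
      refine pow_eq_zero_iff (two_ne_zero) |>.1 ?_
      linear_combination -E0
    apply h2
    linear_combination (2 / 3 + (1 / 3) * rho) * q1 + (1 / 3 + (-1 / 3) * rho) * q2 + ((0) * w2 + ((2 / 3) + (-1 / 3) * rho) * w3) * rho_sq
  · exfalso
    have q35 := (mul_eq_zero.1 P35).resolve_left (mul_ne_zero h3 h5)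
    apply h2
    linear_combination (1 * rho) * q35 +
      (((1) + (-1) * rho) * w2) * rho_sq
  · exfalso
    have q34 := (mul_eq_zero.1 P34).resolve_left (mul_ne_zero h3 h4)
    apply h2
    linear_combination (1) * q34
  · exfalso
    have q25 := (mul_eq_zero.1 P25).resolve_left (mul_ne_zero h2 h5)
    have q45 := (mul_eq_zero.1 P45).resolve_left (mul_ne_zero h4 h5)
    have q35 := (mul_eq_zero.1 P35).resolve_left (mul_ne_zero h3 h5)
    apply h2
    linear_combination (-1 / 2) * q25 + (1 / 2 * rho) * q45 + (1 / 2 * rho) * q35 +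
      (((1) + (-1) * rho) * w2 + ((1 / 2) + (-1 / 2) * rho) * w3 + ((1 / 2) + (-1 / 2) * rho) * w4) * rho_sq
  · exfalso
    apply h1
    refine pow_eq_zero_iff (two_ne_zero) |>.1 ?_
    linear_combination -E0
  · exfalso
    have q1 : 1 * w1 - 1 * w5 = 0 := by
      refine pow_eq_zero_iff (two_ne_zero) |>.1 ?_
      linear_combination -E3
    have q2 : 1 * w1 - rho ^ 2 * w5 = 0 := by
      refine pow_eq_zero_iff (two_ne_zero) |>.1 ?_
      linear_combination -E0
    apply h1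
    linear_combination (2 / 3 + (1 / 3) * rho) * q1 + (1 / 3 + (-1 / 3) * rho) * q2 + ((0) * w1 + ((2 / 3) + (-1 / 3) * rho) * w5) * rho_sq
  · exfalso
    have q1 : 1 * w1 - 1 * w4 = 0 := by
      refine pow_eq_zero_iff (two_ne_zero) |>.1 ?_
      linear_combination -E1
    have q2 : 1 * w1 - rho ^ 2 * w4 = 0 := by
      refine pow_eq_zero_iff (two_ne_zero) |>.1 ?_
      linear_combination -E0
    apply h1
    linear_combination (2 / 3 + (1 / 3) * rho) * q1 + (1 / 3 + (-1 / 3) * rho) * q2 + ((0) * w1 + ((2 / 3) + (-1 / 3) * rho) * w4) * rho_sq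
  · exfalso
    have q45 := (mul_eq_zero.1 P45).resolve_left (mul_ne_zero h4 h5)
    apply h1
    linear_combination (1 * rho) * q45 +
      (((1) + (-1) * rho) * w1) * rho_sq
  · exfalso
    have q1 : 1 * w1 - 1 * w3 = 0 := by
      refine pow_eq_zero_iff (two_ne_zero) |>.1 ?_
      linear_combination -E1
    have q2 : 1 * w1 - rho ^ 2 * w3 = 0 := by
      refine pow_eq_zero_iff (two_ne_zero) |>.1 ?_
      linear_combination -E0
    apply h1
    linear_combination (2 / 3 + (1 / 3) * rho) * q1 + (1 / 3 + (-1 / 3) * rho) * q2 + ((0) * w1 + ((2 / 3) + (-1 / 3) * rho) * w3) * rho_sq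
  · exfalso
    have q35 := (mul_eq_zero.1 P35).resolve_left (mul_ne_zero h3 h5)
    apply h1
    linear_combination (1) * q35
  · exfalso
    have q34 := (mul_eq_zero.1 P34).resolve_left (mul_ne_zero h3 h4)
    apply h1
    linear_combination (1 * rho) * q34 +
      (((1) + (-1) * rho) * w1) * rho_sq
  · exfalso
    have q15 := (mul_eq_zero.1 P15).resolve_left (mul_ne_zero h1 h5)
    have q45 := (mul_eq_zero.1 P45).resolve_left (mul_ne_zero h4 h5)
    have q35 := (mul_eq_zero.1 P35).resolve_left (mul_ne_zero h3 h5)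
    apply h1
    linear_combination (-1 / 2 * rho) * q15 + (1 / 2 * rho) * q45 + (1 / 2) * q35 +
      (((1 / 2) + (-1 / 2) * rho) * w1) * rho_sq
  · exfalso
    have q1 : 1 * w1 - 1 * w2 = 0 := by
      refine pow_eq_zero_iff (two_ne_zero) |>.1 ?_
      linear_combination -E0
    have q2 : 1 * w1 - rho ^ 2 * w2 = 0 := by
      refine pow_eq_zero_iff (two_ne_zero) |>.1 ?_
      linear_combination -E1
    apply h1
    linear_combination (2 / 3 + (1 / 3) * rho) * q1 + (1 / 3 + (-1 / 3) * rho) * q2 + ((0) * w1 + ((2 / 3) + (-1 / 3) * rho) * w2) * rho_sq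
  · exfalso
    have q25 := (mul_eq_zero.1 P25).resolve_left (mul_ne_zero h2 h5)
    apply h1
    linear_combination (1 * rho) * q25 +
      (((1) + (-1) * rho) * w1) * rho_sq
  · exfalso
    have q24 := (mul_eq_zero.1 P24).resolve_left (mul_ne_zero h2 h4)
    apply h1
    linear_combination (1) * q24
  · exfalso
    have q15 := (mul_eq_zero.1 P15).resolve_left (mul_ne_zero h1 h5)
    have q45 := (mul_eq_zero.1 P45).resolve_left (mul_ne_zero h4 h5)
    have q25 := (mul_eq_zero.1 P25).resolve_left (mul_ne_zero h2 h5)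
    apply h1
    linear_combination (-1 / 2) * q15 + (1 / 2 * rho) * q45 + (1 / 2 * rho) * q25 +
      (((1) + (-1) * rho) * w1 + ((1 / 2) + (-1 / 2) * rho) * w2) * rho_sq
  · exfalso
    have q23 := (mul_eq_zero.1 P23).resolve_left (mul_ne_zero h2 h3)
    apply h1
    linear_combination (1 * rho) * q23 +
      (((1) + (-1) * rho) * w1) * rho_sq
  · exfalso
    have q15 := (mul_eq_zero.1 P15).resolve_left (mul_ne_zero h1 h5)
    have q35 := (mul_eq_zero.1 P35).resolve_left (mul_ne_zero h3 h5)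
    have q25 := (mul_eq_zero.1 P25).resolve_left (mul_ne_zero h2 h5)
    apply h1
    linear_combination (1 / 2 + (1 / 2) * rho) * q15 + (1 / 2) * q35 + (1 / 2 * rho) * q25 +
      (((1 / 2) + (-1 / 2) * rho) * w1 + ((-1 / 2)) * w2 + ((-1 / 2) * rho) * w3) * rho_sq
  · exfalso
    have q14 := (mul_eq_zero.1 P14).resolve_left (mul_ne_zero h1 h4)
    have q34 := (mul_eq_zero.1 P34).resolve_left (mul_ne_zero h3 h4)
    have q24 := (mul_eq_zero.1 P24).resolve_left (mul_ne_zero h2 h4)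
    apply h1
    linear_combination (1 / 2 + (1 / 2) * rho) * q14 + (1 / 2 * rho) * q34 + (1 / 2) * q24 +
      (((1 / 2) + (-1 / 2) * rho) * w1 + ((-1 / 2) * rho) * w2 + ((-1 / 2)) * w3) * rho_sq
  · exfalso
    have q25 := (mul_eq_zero.1 P25).resolve_left (mul_ne_zero h2 h5)
    have q35 := (mul_eq_zero.1 P35).resolve_left (mul_ne_zero h3 h5)
    have q34 := (mul_eq_zero.1 P34).resolve_left (mul_ne_zero h3 h4)
    have q24 := (mul_eq_zero.1 P24).resolve_left (mul_ne_zero h2 h4)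
    apply h1
    linear_combination (1 / 6 + (1 / 3) * rho) * q25 + (1 / 3 + (1 / 6) * rho) * q35 + (1 / 6 + (1 / 3) * rho) * q34 + (1 / 3 + (1 / 6) * rho) * q24 +
      (((1 / 3) + (-2 / 3) * rho) * w1 + ((-1 / 6) + (-1 / 6) * rho) * w2 + ((-1 / 6) + (-1 / 6) * rho) * w3 + ((-1 / 6) + (-1 / 6) * rho) * w4 + ((-1 / 3) * rho) * w5) * rho_sq
  · exfalso
    apply h0
    refine pow_eq_zero_iff (two_ne_zero) |>.1 ?_
    linear_combination -E0
  · exfalso
    have q1 : 1 * w0 - 1 * w5 = 0 := by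
      refine pow_eq_zero_iff (two_ne_zero) |>.1 ?_
      linear_combination -E2
    have q2 : 1 * w0 - rho ^ 2 * w5 = 0 := by
      refine pow_eq_zero_iff (two_ne_zero) |>.1 ?_
      linear_combination -E0
    apply h0
    linear_combination (2 / 3 + (1 / 3) * rho) * q1 + (1 / 3 + (-1 / 3) * rho) * q2 + ((0) * w0 + ((2 / 3) + (-1 / 3) * rho) * w5) * rho_sq
  · exfalso
    have q1 : 1 * w0 - 1 * w4 = 0 := by
      refine pow_eq_zero_iff (two_ne_zero) |>.1 ?_
      linear_combination -E1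
    have q2 : 1 * w0 - rho ^ 2 * w4 = 0 := by
      refine pow_eq_zero_iff (two_ne_zero) |>.1 ?_
      linear_combination -E0
    apply h0
    linear_combination (2 / 3 + (1 / 3) * rho) * q1 + (1 / 3 + (-1 / 3) * rho) * q2 + ((0) * w0 + ((2 / 3) + (-1 / 3) * rho) * w4) * rho_sq
  · exfalso
    have q45 := (mul_eq_zero.1 P45).resolve_left (mul_ne_zero h4 h5)
    apply h0
    linear_combination (1) * q45
  · exfalso
    have q1 : 1 * w0 - 1 * w3 = 0 := by
      refine pow_eq_zero_iff (two_ne_zero) |>.1 ?_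
      linear_combination -E1
    have q2 : 1 * w0 - rho ^ 2 * w3 = 0 := by
      refine pow_eq_zero_iff (two_ne_zero) |>.1 ?_
      linear_combination -E0
    apply h0
    linear_combination (2 / 3 + (1 / 3) * rho) * q1 + (1 / 3 + (-1 / 3) * rho) * q2 + ((0) * w0 + ((2 / 3) + (-1 / 3) * rho) * w3) * rho_sq
  · exfalso
    have q35 := (mul_eq_zero.1 P35).resolve_left (mul_ne_zero h3 h5)
    apply h0
    linear_combination (1 * rho) * q35 +
      (((1) + (-1) * rho) * w0) * rho_sq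
  · exfalso
    have q34 := (mul_eq_zero.1 P34).resolve_left (mul_ne_zero h3 h4)
    apply h0
    linear_combination (1 * rho) * q34 +
      (((1) + (-1) * rho) * w0) * rho_sq
  · exfalso
    have q05 := (mul_eq_zero.1 P05).resolve_left (mul_ne_zero h0 h5)
    have q45 := (mul_eq_zero.1 P45).resolve_left (mul_ne_zero h4 h5)
    have q35 := (mul_eq_zero.1 P35).resolve_left (mul_ne_zero h3 h5)
    apply h0
    linear_combination (-1 / 2 * rho) * q05 + (1 / 2) * q45 + (1 / 2 * rho) * q35 +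
      (((1 / 2) + (-1 / 2) * rho) * w0) * rho_sq
  · exfalso
    have q1 : 1 * w0 - 1 * w2 = 0 := by
      refine pow_eq_zero_iff (two_ne_zero) |>.1 ?_
      linear_combination -E0
    have q2 : 1 * w0 - rho ^ 2 * w2 = 0 := by
      refine pow_eq_zero_iff (two_ne_zero) |>.1 ?_
      linear_combination -E1
    apply h0
    linear_combination (2 / 3 + (1 / 3) * rho) * q1 + (1 / 3 + (-1 / 3) * rho) * q2 + ((0) * w0 + ((2 / 3) + (-1 / 3) * rho) * w2) * rho_sq
  · exfalso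
    have q25 := (mul_eq_zero.1 P25).resolve_left (mul_ne_zero h2 h5)
    apply h0
    linear_combination (1 * rho) * q25 +
      (((1) + (-1) * rho) * w0) * rho_sq
  · exfalso
    have q24 := (mul_eq_zero.1 P24).resolve_left (mul_ne_zero h2 h4)
    apply h0
    linear_combination (1 * rho) * q24 +
      (((1) + (-1) * rho) * w0) * rho_sq
  · exfalso
    have q05 := (mul_eq_zero.1 P05).resolve_left (mul_ne_zero h0 h5)
    have q45 := (mul_eq_zero.1 P45).resolve_left (mul_ne_zero h4 h5)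
    have q25 := (mul_eq_zero.1 P25).resolve_left (mul_ne_zero h2 h5)
    apply h0
    linear_combination (1 / 2 + (1 / 2) * rho) * q05 + (1 / 2) * q45 + (1 / 2 * rho) * q25 +
      (((1 / 2) + (-1 / 2) * rho) * w0 + ((-1 / 2)) * w2 + ((-1 / 2) * rho) * w4) * rho_sq
  · exfalso
    have q23 := (mul_eq_zero.1 P23).resolve_left (mul_ne_zero h2 h3)
    apply h0
    linear_combination (1) * q23
  · exfalso
    have q05 := (mul_eq_zero.1 P05).resolve_left (mul_ne_zero h0 h5)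
    have q35 := (mul_eq_zero.1 P35).resolve_left (mul_ne_zero h3 h5)
    have q25 := (mul_eq_zero.1 P25).resolve_left (mul_ne_zero h2 h5)
    apply h0
    linear_combination (-1 / 2) * q05 + (1 / 2 * rho) * q35 + (1 / 2 * rho) * q25 +
      (((1) + (-1) * rho) * w0 + ((1 / 2) + (-1 / 2) * rho) * w2) * rho_sq
  · exfalso
    have q04 := (mul_eq_zero.1 P04).resolve_left (mul_ne_zero h0 h4)
    have q34 := (mul_eq_zero.1 P34).resolve_left (mul_ne_zero h3 h4)
    have q24 := (mul_eq_zero.1 P24).resolve_left (mul_ne_zero h2 h4)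
    apply h0
    linear_combination (1 / 2 + (1 / 2) * rho) * q04 + (1 / 2 * rho) * q34 + (1 / 2 * rho) * q24 +
      (((1) + (-1) * rho) * w0 + ((-1 / 2) * rho) * w2 + ((-1 / 2) * rho) * w3) * rho_sq
  · exfalso
    have q25 := (mul_eq_zero.1 P25).resolve_left (mul_ne_zero h2 h5)
    have q35 := (mul_eq_zero.1 P35).resolve_left (mul_ne_zero h3 h5)
    have q34 := (mul_eq_zero.1 P34).resolve_left (mul_ne_zero h3 h4)
    have q24 := (mul_eq_zero.1 P24).resolve_left (mul_ne_zero h2 h4)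
    apply h0
    linear_combination (-1 / 6 + (1 / 6) * rho) * q25 + (1 / 6 + (1 / 3) * rho) * q35 + (-1 / 6 + (1 / 6) * rho) * q34 + (1 / 6 + (1 / 3) * rho) * q24 +
      (((1) + (-1) * rho) * w0 + ((1 / 6) + (-1 / 3) * rho) * w2 + ((1 / 6) + (-1 / 3) * rho) * w3 + ((1 / 6) + (-1 / 3) * rho) * w4 + ((-1 / 6) * rho) * w5) * rho_sq
  · exfalso
    have q1 : 1 * w0 - 1 * w1 = 0 := by
      refine pow_eq_zero_iff (two_ne_zero) |>.1 ?_
      linear_combination -E0
    have q2 : 1 * w0 - rho ^ 2 * w1 = 0 := by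
      refine pow_eq_zero_iff (two_ne_zero) |>.1 ?_
      linear_combination -E2
    apply h0
    linear_combination (2 / 3 + (1 / 3) * rho) * q1 + (1 / 3 + (-1 / 3) * rho) * q2 + ((0) * w0 + ((2 / 3) + (-1 / 3) * rho) * w1) * rho_sq
  · exfalso
    have q15 := (mul_eq_zero.1 P15).resolve_left (mul_ne_zero h1 h5)
    apply h0
    linear_combination (1 * rho) * q15 +
      (((1) + (-1) * rho) * w0) * rho_sq
  · exfalso
    have q14 := (mul_eq_zero.1 P14).resolve_left (mul_ne_zero h1 h4)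
    apply h0
    linear_combination (1 * rho) * q14 +
      (((1) + (-1) * rho) * w0) * rho_sq
  · exfalso
    have q05 := (mul_eq_zero.1 P05).resolve_left (mul_ne_zero h0 h5)
    have q45 := (mul_eq_zero.1 P45).resolve_left (mul_ne_zero h4 h5)
    have q15 := (mul_eq_zero.1 P15).resolve_left (mul_ne_zero h1 h5)
    apply h0
    linear_combination (-1 / 2) * q05 + (1 / 2) * q45 + (1 / 2 * rho) * q15 +
      (((1 / 2) + (-1 / 2) * rho) * w0) * rho_sq
  · exfalso
    have q13 := (mul_eq_zero.1 P13).resolve_left (mul_ne_zero h1 h3)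
    apply h0
    linear_combination (1) * q13
  · exfalso
    have q05 := (mul_eq_zero.1 P05).resolve_left (mul_ne_zero h0 h5)
    have q35 := (mul_eq_zero.1 P35).resolve_left (mul_ne_zero h3 h5)
    have q15 := (mul_eq_zero.1 P15).resolve_left (mul_ne_zero h1 h5)
    apply h0
    linear_combination (1 / 2 + (1 / 2) * rho) * q05 + (1 / 2 * rho) * q35 + (1 / 2 * rho) * q15 +
      (((1) + (-1) * rho) * w0 + ((-1 / 2) * rho) * w1 + ((-1 / 2) * rho) * w3) * rho_sq
  · exfalso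
    have q04 := (mul_eq_zero.1 P04).resolve_left (mul_ne_zero h0 h4)
    have q34 := (mul_eq_zero.1 P34).resolve_left (mul_ne_zero h3 h4)
    have q14 := (mul_eq_zero.1 P14).resolve_left (mul_ne_zero h1 h4)
    apply h0
    linear_combination (-1 / 2) * q04 + (1 / 2 * rho) * q34 + (1 / 2 * rho) * q14 +
      (((1) + (-1) * rho) * w0 + ((1 / 2) + (-1 / 2) * rho) * w1) * rho_sq
  · exfalso
    have q15 := (mul_eq_zero.1 P15).resolve_left (mul_ne_zero h1 h5)
    have q35 := (mul_eq_zero.1 P35).resolve_left (mul_ne_zero h3 h5)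
    have q34 := (mul_eq_zero.1 P34).resolve_left (mul_ne_zero h3 h4)
    have q14 := (mul_eq_zero.1 P14).resolve_left (mul_ne_zero h1 h4)
    apply h0
    linear_combination (1 / 6 + (1 / 3) * rho) * q15 + (-1 / 6 + (1 / 6) * rho) * q35 + (1 / 6 + (1 / 3) * rho) * q34 + (-1 / 6 + (1 / 6) * rho) * q14 +
      (((1) + (-1) * rho) * w0 + ((1 / 6) + (-1 / 3) * rho) * w1 + ((1 / 6) + (-1 / 3) * rho) * w3 + ((-1 / 6) * rho) * w4 + ((1 / 6) + (-1 / 3) * rho) * w5) * rho_sq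
  · exfalso
    have q12 := (mul_eq_zero.1 P12).resolve_left (mul_ne_zero h1 h2)
    apply h0
    linear_combination (1) * q12
  · exfalso
    have q05 := (mul_eq_zero.1 P05).resolve_left (mul_ne_zero h0 h5)
    have q25 := (mul_eq_zero.1 P25).resolve_left (mul_ne_zero h2 h5)
    have q15 := (mul_eq_zero.1 P15).resolve_left (mul_ne_zero h1 h5)
    apply h0
    linear_combination (-1 / 2 * rho) * q05 + (1 / 2 * rho) * q25 + (1 / 2 * rho) * q15 +
      (((1) + (-1) * rho) * w0) * rho_sq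
  · exfalso
    have q04 := (mul_eq_zero.1 P04).resolve_left (mul_ne_zero h0 h4)
    have q24 := (mul_eq_zero.1 P24).resolve_left (mul_ne_zero h2 h4)
    have q14 := (mul_eq_zero.1 P14).resolve_left (mul_ne_zero h1 h4)
    apply h0
    linear_combination (-1 / 2 * rho) * q04 + (1 / 2 * rho) * q24 + (1 / 2 * rho) * q14 +
      (((1) + (-1) * rho) * w0) * rho_sq
  · exfalso
    have q15 := (mul_eq_zero.1 P15).resolve_left (mul_ne_zero h1 h5)
    have q25 := (mul_eq_zero.1 P25).resolve_left (mul_ne_zero h2 h5)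
    have q24 := (mul_eq_zero.1 P24).resolve_left (mul_ne_zero h2 h4)
    have q14 := (mul_eq_zero.1 P14).resolve_left (mul_ne_zero h1 h4)
    apply h0
    linear_combination (-1 / 6 + (1 / 6) * rho) * q15 + (1 / 6 + (1 / 3) * rho) * q25 + (-1 / 6 + (1 / 6) * rho) * q24 + (1 / 6 + (1 / 3) * rho) * q14 +
      (((1) + (-1) * rho) * w0 + ((1 / 6) + (-1 / 3) * rho) * w1 + ((1 / 6) + (-1 / 3) * rho) * w2 + ((-1 / 6)) * w4 + ((-1 / 6)) * w5) * rho_sq
  · exfalso
    have q03 := (mul_eq_zero.1 P03).resolve_left (mul_ne_zero h0 h3)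
    have q23 := (mul_eq_zero.1 P23).resolve_left (mul_ne_zero h2 h3)
    have q13 := (mul_eq_zero.1 P13).resolve_left (mul_ne_zero h1 h3)
    apply h0
    linear_combination (-1 / 2) * q03 + (1 / 2) * q23 + (1 / 2) * q13
  · exfalso
    have q15 := (mul_eq_zero.1 P15).resolve_left (mul_ne_zero h1 h5)
    have q25 := (mul_eq_zero.1 P25).resolve_left (mul_ne_zero h2 h5)
    have q23 := (mul_eq_zero.1 P23).resolve_left (mul_ne_zero h2 h3)
    have q13 := (mul_eq_zero.1 P13).resolve_left (mul_ne_zero h1 h3)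
    apply h0
    linear_combination (1 / 6 + (1 / 3) * rho) * q15 + (-1 / 6 + (1 / 6) * rho) * q25 + (1 / 6 + (-1 / 6) * rho) * q23 + (1 / 3 + (1 / 6) * rho) * q13 +
      (((1 / 2) + (-1 / 2) * rho) * w0 + ((-1 / 6) + (-1 / 6) * rho) * w2 + ((1 / 6) + (-1 / 3) * rho) * w3 + ((-1 / 6) * rho) * w5) * rho_sq
  · exfalso
    have q14 := (mul_eq_zero.1 P14).resolve_left (mul_ne_zero h1 h4)
    have q24 := (mul_eq_zero.1 P24).resolve_left (mul_ne_zero h2 h4)
    have q23 := (mul_eq_zero.1 P23).resolve_left (mul_ne_zero h2 h3)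
    have q13 := (mul_eq_zero.1 P13).resolve_left (mul_ne_zero h1 h3)
    apply h0
    linear_combination (-1 / 6 + (1 / 6) * rho) * q14 + (1 / 6 + (1 / 3) * rho) * q24 + (1 / 3 + (1 / 6) * rho) * q23 + (1 / 6 + (-1 / 6) * rho) * q13 +
      (((1 / 2) + (-1 / 2) * rho) * w0 + ((-1 / 6) + (-1 / 6) * rho) * w1 + ((1 / 6) + (-1 / 3) * rho) * w3 + ((-1 / 6) * rho) * w4) * rho_sq
  · exfalso
    have q45 := (mul_eq_zero.1 P45).resolve_left (mul_ne_zero h4 h5)
    have q01 := (mul_eq_zero.1 P01).resolve_left (mul_ne_zero h0 h1)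
    have q13 := (mul_eq_zero.1 P13).resolve_left (mul_ne_zero h1 h3)
    have q12 := (mul_eq_zero.1 P12).resolve_left (mul_ne_zero h1 h2)
    apply h1
    linear_combination (1 * rho) * q45 + (-1 / 2) * q01 + (-1 / 2 * rho) * q13 + (-1 / 2 * rho) * q12 +
      (((1) + (-1) * rho) * w1 + ((1 / 2) + (-1 / 2) * rho) * w2 + ((1 / 2) + (-1 / 2) * rho) * w3 + ((1 / 2)) * w4 + ((1 / 2) * rho) * w5) * rho_sq

end Pool.Agent.N139.G00
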