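import Pool.Agent.N139.G00.Kp

/-!
# From the normal form to the derivatives of the theta functions
-/

namespace Pool.Agent.N139.G00

open Complex Matrix
open scoped Real ContDiff
open Pool.Agent.N139.Th

/-- the theta functions in factorised form -/
noncomputable def TH (C : ℂ) (e : Fin 6 → Fin 2) (z : Fin 6 → ℂ) : ℂ :=
  C * cexp (-(Q * ∑ i, z i ^ 2)) * P e z

theorem nf_contDiff (t : Fin 4) : ContDiff ℂ ω (nf t) := (nf_diff t).contDiff

theorem TH_contDiff (C : ℂ) (e : Fin 6 → Fin 2) : ContDiff ℂ ω (TH C e) := by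
  unfold TH P
  have h : ∀ i, ContDiff ℂ ω fun z : Fin 6 → ℂ => nf (ty e i) (z i) := fun i =>
    (nf_contDiff (ty e i)).comp (contDiff_apply ℂ ℂ i)
  have h2 : ContDiff ℂ ω fun z : Fin 6 → ℂ => ∏ i, nf (ty e i) (z i) :=
    contDiff_prod fun i _ => h i
  have h3 : ContDiff ℂ ω fun z : Fin 6 → ℂ => ∑ i, z i ^ 2 := by
    refine ContDiff.sum fun i _ => ?_
    exact (contDiff_apply ℂ ℂ i).pow 2
  exact (contDiff_const.mul ((contDiff_const.mul h3).neg.cexp)).mul h2

/-- iterated derivatives along a line -/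
theorem line {f : (Fin 6 → ℂ) → ℂ} (hf : ContDiff ℂ ω f) (k : ℕ) (v : Fin 6 → ℂ) :
    iteratedFDeriv ℂ k f 0 (fun _ => v) = (k.factorial : ℂ) * tc (fun s => f (dir v s)) k := by
  obtain ⟨g, hg⟩ : ∃ g : ℂ →L[ℂ] (Fin 6 → ℂ), ∀ s, g s = dir v s := by
    refine ⟨(ContinuousLinearMap.id ℂ ℂ).smulRight v, fun s => ?_⟩
    funext i
    simp [dir]
    ring
  have h1 := g.iteratedFDeriv_comp_right hf (0 : ℂ) (i := k) (by exact le_top)
  have h2 : (fun s => f (dir v s)) = f ∘ g := by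
    funext s
    simp [hg]
  have h3 : tc (fun s => f (dir v s)) k = iteratedFDeriv ℂ k f 0 (fun _ => v) / k.factorial := by
    rw [tc, iteratedDeriv, h2, h1, ContinuousMultilinearMap.compContinuousLinearMap_apply, map_zero]
    congr 3
    funext i
    rw [hg]
    funext j
    simp [dir]
  have h4 : (k.factorial : ℂ) ≠ 0 := by exact_mod_cast Nat.factorial_ne_zero k
  rw [h3]
  field_simp

theorem const_two (v : Fin 6 → ℂ) : (fun _ => v : Fin 2 → Fin 6 → ℂ) = ![v, v] := by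
  funext i
  fin_cases i <;> rfl

theorem const_four (v : Fin 6 → ℂ) : (fun _ => v : Fin 4 → Fin 6 → ℂ) = ![v, v, v, v] := by
  funext i
  fin_cases i <;> rfl

/-- polarisation -/
theorem polar {f : (Fin 6 → ℂ) → ℂ} (hf : ContDiff ℂ ω f) (v w : Fin 6 → ℂ) :
    iteratedFDeriv ℂ 2 f 0 ![v, w] = tc (fun s => f (dir (v + w) s)) 2 -
      tc (fun s => f (dir v s)) 2 - tc (fun s => f (dir w s)) 2 := by
  have hs : IsSymmSndFDerivAt ℂ f 0 := hf.contDiffAt.isSymmSndFDerivAt_of_omega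
  have h1 := line hf 2 (v + w)
  have h2 := line hf 2 v
  have h3 := line hf 2 w
  rw [iteratedFDeriv_two_apply] at h1 h2 h3 ⊢
  have h4 := hs.eq v w
  simp only [Matrix.cons_val_zero, Matrix.cons_val_one, map_add, _root_.add_apply]
    at h1 h2 h3 h4 ⊢
  rw [Nat.factorial_two] at h1 h2 h3
  push_cast at h1 h2 h3
  linear_combination (1 / 2) * (h1 - h2 - h3) + (1 / 2) * h4

/-- the quadratic factor -/
noncomputable def Gf (v : Fin 6 → ℂ) (s : ℂ) : ℂ := cexp (-(Q * ∑ i, dir v s i ^ 2))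

theorem Gf_diff (v : Fin 6 → ℂ) : Differentiable ℂ (Gf v) := by
  unfold Gf dir
  fun_prop

theorem Gf_zero (v : Fin 6 → ℂ) : tc (Gf v) 0 = 1 := by
  rw [tc_zero]
  simp [Gf, dir]

theorem Gf_odd (v : Fin 6 → ℂ) (n : ℕ) (hn : Odd n) : tc (Gf v) n = 0 := by
  have h := tc_scale (Gf_diff v) (-1) n
  have h1 : (fun z => Gf v (-1 * z)) = Gf v := by
    funext z
    simp [Gf, dir]
  rw [h1, hn.neg_one_pow] at h
  have h2 : (2 : ℂ) * tc (Gf v) n = 0 := by linear_combination h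
  simpa using h2

theorem TH_dir (C : ℂ) (e : Fin 6 → Fin 2) (v : Fin 6 → ℂ) (s : ℂ) :
    TH C e (dir v s) = C * (Gf v s * P e (dir v s)) := by
  rw [TH, Gf]
  ring

theorem TH_tc0 (C : ℂ) (e : Fin 6 → Fin 2) (v : Fin 6 → ℂ) :
    tc (fun s => TH C e (dir v s)) 0 = C * tc (fun s => P e (dir v s)) 0 := by
  simp only [TH_dir]
  rw [tc_const_mul, ← coeff_tay, tay_mul (Gf_diff v) (P_dir_diff e v), coeff_mul_0]
  simp only [coeff_tay, Gf_zero]
  ring

theorem TH_tc2 (C : ℂ) (e : Fin 6 → Fin 2) (v : Fin 6 → ℂ) :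
    tc (fun s => TH C e (dir v s)) 2 = C * (tc (fun s => P e (dir v s)) 2 +
      tc (Gf v) 2 * tc (fun s => P e (dir v s)) 0) := by
  simp only [TH_dir]
  rw [tc_const_mul, ← coeff_tay, tay_mul (Gf_diff v) (P_dir_diff e v), coeff_mul_2]
  simp only [coeff_tay, Gf_zero, Gf_odd v 1 (by decide)]
  ring

theorem TH_tc4 (C : ℂ) (e : Fin 6 → Fin 2) (v : Fin 6 → ℂ) :
    tc (fun s => TH C e (dir v s)) 4 = C * (tc (fun s => P e (dir v s)) 4 +
      tc (Gf v) 2 * tc (fun s => P e (dir v s)) 2 +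
      tc (Gf v) 4 * tc (fun s => P e (dir v s)) 0) := by
  simp only [TH_dir]
  rw [tc_const_mul, ← coeff_tay, tay_mul (Gf_diff v) (P_dir_diff e v), coeff_mul_4]
  simp only [coeff_tay, Gf_zero, Gf_odd v 1 (by decide), Gf_odd v 3 (by decide)]
  ring

theorem tcP0 (e : Fin 6 → Fin 2) (v w : Fin 6 → ℂ) :
    tc (fun s => P e (dir v s)) 0 = tc (fun s => P e (dir w s)) 0 := by
  rw [tc_zero, tc_zero]
  congr 1
  funext i
  simp [dir]

/-- the equation of Kadomtsev and Petviashvili fails -/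
theorem no_kp (C : (Fin 6 → Fin 2) → ℂ) (hC : ∀ e, C e ≠ 0) (U V W : Fin 6 → ℂ) (d : ℂ)
    (H : ∀ e, iteratedFDeriv ℂ 4 (TH (C e) e) 0 ![U, U, U, U] -
      iteratedFDeriv ℂ 2 (TH (C e) e) 0 ![U, W] +
      3 / 4 * iteratedFDeriv ℂ 2 (TH (C e) e) 0 ![V, V] + d * TH (C e) e 0 = 0) : U = 0 := by
  refine no_four (ι := Fin 4) U ![U + W, U, W, V]
    ![-1, 24 * tc (Gf U) 2 + 1, 1, 3 / 2]
    (24 * tc (Gf U) 4 - tc (Gf (U + W)) 2 + tc (Gf U) 2 + tc (Gf W) 2 + 3 / 2 * tc (Gf V) 2 + d)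
    fun e => ?_
  have h := H e
  have c := TH_contDiff (C e) e
  have h4 := line c 4 U
  have h5 := line c 2 V
  have h6 := polar c U W
  rw [const_four] at h4
  rw [const_two] at h5
  have h7 : TH (C e) e 0 = tc (fun s => TH (C e) e (dir U s)) 0 := by
    rw [tc_zero]
    congr 1
    funext i
    simp [dir]
  rw [h4, h5, h6, h7, TH_tc4, TH_tc2, TH_tc2, TH_tc2, TH_tc2, TH_tc0, tcP0 e V U,
    tcP0 e (U + W) U, tcP0 e W U] at h
  have f4 : ((Nat.factorial 4 : ℕ) : ℂ) = 24 := by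
    norm_num [Nat.factorial]
  have f2 : ((Nat.factorial 2 : ℕ) : ℂ) = 2 := by
    norm_num [Nat.factorial]
  rw [f4, f2] at h
  simp only [Fin.sum_univ_four, Matrix.cons_val]
  refine mul_left_cancel₀ (hC e) ?_
  linear_combination h

/-- the point is in the base locus -/
theorem base_TH (C : (Fin 6 → Fin 2) → ℂ) (c : (Fin 6 → Fin 2) → ℂ)
    (H : ∀ k < 4, iteratedFDeriv ℂ k (fun z => ∑ e, c e * TH (C e) e z) 0 = 0) :
    ∑ e, c e * TH (C e) e z0 = 0 := by
  have hcd : ContDiff ℂ ω (fun z => ∑ e, c e * TH (C e) e z) :=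
    ContDiff.sum fun e _ => contDiff_const.mul (TH_contDiff (C e) e)
  have hz : ∀ k < 4, ∀ v, tc (fun s => ∑ e, c e * TH (C e) e (dir v s)) k = 0 := by
    intro k hk v
    have h1 := line hcd k v
    rw [H k hk] at h1
    have h4 : (k.factorial : ℂ) ≠ 0 := by exact_mod_cast Nat.factorial_ne_zero k
    have h5 : (k.factorial : ℂ) * tc (fun s => ∑ e, c e * TH (C e) e (dir v s)) k = 0 := by
      rw [← h1]
      simp
    exact (mul_eq_zero.1 h5).resolve_left h4
  have hfac : ∀ v, (fun s => ∑ e, c e * TH (C e) e (dir v s)) =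
      fun s => Gf v s * ∑ e, (c e * C e) * P e (dir v s) := by
    intro v
    funext s
    rw [Finset.mul_sum]
    refine Finset.sum_congr rfl fun e _ => ?_
    rw [TH_dir]
    ring
  have hd : ∀ v, ∀ e, Differentiable ℂ fun s => (c e * C e) * P e (dir v s) := by
    intro v e
    have := P_dir_diff e v
    fun_prop
  have hds : ∀ v, Differentiable ℂ fun s => ∑ e, (c e * C e) * P e (dir v s) := fun v =>
    Differentiable.fun_sum fun e _ => hd v e
  have hmain : ∀ v : Fin 6 → ℂ, ∑ e, (c e * C e) * tc (fun s => P e (dir v s)) 2 = 0 := by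
    intro v
    have z0' := hz 0 (by norm_num) v
    have z1' := hz 1 (by norm_num) v
    have z2' := hz 2 (by norm_num) v
    rw [hfac, ← coeff_tay, tay_mul (Gf_diff v) (hds v)] at z0' z1' z2'
    rw [coeff_mul_0] at z0'
    rw [coeff_mul_1] at z1'
    rw [coeff_mul_2] at z2'
    simp only [coeff_tay, Gf_zero, Gf_odd v 1 (by decide)] at z0' z1' z2'
    rw [one_mul] at z0'
    rw [z0'] at z1' z2'
    have h5 : tc (fun s => ∑ e, (c e * C e) * P e (dir v s)) 2 = 0 := by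
      linear_combination z2'
    rw [tc_sum _ _ (hd v)] at h5
    rw [← h5]
    exact Finset.sum_congr rfl fun e _ => (tc_const_mul _ _ _).symm
  have h1 := base (fun e => c e * C e) hmain
  have h2 : ∑ e, c e * TH (C e) e z0 = cexp (-(Q * ∑ i, z0 i ^ 2)) * ∑ e, c e * C e * P e z0 := by
    rw [Finset.mul_sum]
    refine Finset.sum_congr rfl fun e _ => ?_
    rw [TH]
    ring
  rw [h2, h1, mul_zero]

end Pool.Agent.N139.G00
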