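import Pool.Agent.N139.G00.MinNorm

/-!
# Indecomposability
-/

namespace Pool.Agent.N139.G00

open Complex Matrix
open scoped Real
open Pool.Agent.N139.Th

theorem T_apply (i j : Fin 6) : T i j = ((if i = j then rho else 0) + (S6 i j : ℂ)) / 2 := by
  rw [T, tmat, S6_entries i j]
  by_cases h : i = j
  · subst h
    simp only [if_true, s6]
    push_cast
    ring
  · simp only [if_neg h]
    push_cast
    ring

theorem T_symm : Tᵀ = T := tmat_symm s6 U6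

theorem T_eq : T = T6 S6 := by
  ext i j
  rw [T_apply, T6]
  simp only [Matrix.smul_apply, Matrix.add_apply, cc, Matrix.map_apply, Matrix.one_apply,
    smul_eq_mul]
  split_ifs <;> ring

theorem T_im : T - Tᴴ = ((√3 / 2 : ℝ) * I : ℂ) • (1 : Matrix (Fin 6) (Fin 6) ℂ) := by
  have hr : rho - (starRingEnd ℂ) rho = ((√3 : ℝ) : ℂ) * I := by
    apply Complex.ext
    · simp [rho]
    · simp [rho]
  ext i j
  rw [Matrix.sub_apply, Matrix.conjTranspose_apply, T_apply, T_apply, Matrix.smul_apply,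
    Matrix.one_apply]
  have hs : S6 j i = S6 i j := by
    fin_cases i <;> fin_cases j <;> rfl
  rw [hs]
  by_cases h : i = j
  · subst h
    simp only [if_true]
    rw [Complex.star_def, map_div₀, map_add, map_intCast]
    have h2 : (starRingEnd ℂ) (2 : ℂ) = 2 := Complex.conj_ofNat 2
    rw [h2, smul_eq_mul]
    push_cast
    linear_combination hr / 2
  · rw [if_neg h, if_neg (Ne.symm h), if_neg h]
    simp

section general

variable {t : Matrix (Fin 6) (Fin 6) ℂ}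

theorem cc_conjTranspose (A : Matrix (Fin 6) (Fin 6) ℤ) : (cc A)ᴴ = cc Aᵀ := by
  ext i j
  simp [cc]

theorem cc_transpose_zero : cc (0 : Matrix (Fin 6) (Fin 6) ℤ) = 0 := by
  ext i j
  simp [cc]

theorem EF (a b c d : Matrix (Fin 6) (Fin 6) ℤ) (h1 : cᵀ * a = aᵀ * c) (h2 : dᵀ * b = bᵀ * d)
    (h3 : aᵀ * d - cᵀ * b = 1) :
    (cc c * t + cc d)ᴴ * (cc a * t + cc b) - (cc a * t + cc b)ᴴ * (cc c * t + cc d) =
      t - tᴴ := by
  have h4 : dᵀ * a - bᵀ * c = 1 := by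
    have := congrArg Matrix.transpose h3
    simpa using this
  have e1 : cc cᵀ * cc a = cc aᵀ * cc c := by rw [← cc_mul, ← cc_mul, h1]
  have e2 : cc dᵀ * cc b = cc bᵀ * cc d := by rw [← cc_mul, ← cc_mul, h2]
  have e3 : cc aᵀ * cc d = 1 + cc cᵀ * cc b := by
    rw [← cc_mul, ← cc_mul, ← cc_one, ← cc_add, ← h3]
    congr 1
    abel
  have e4 : cc dᵀ * cc a = 1 + cc bᵀ * cc c := by
    rw [← cc_mul, ← cc_mul, ← cc_one, ← cc_add, ← h4]
    congr 1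
    abel
  rw [Matrix.conjTranspose_add, Matrix.conjTranspose_add, Matrix.conjTranspose_mul,
    Matrix.conjTranspose_mul, cc_conjTranspose, cc_conjTranspose, cc_conjTranspose,
    cc_conjTranspose]
  calc (tᴴ * cc cᵀ + cc dᵀ) * (cc a * t + cc b) - (tᴴ * cc aᵀ + cc bᵀ) * (cc c * t + cc d)
      = tᴴ * (cc cᵀ * cc a) * t + tᴴ * (cc cᵀ * cc b) + (cc dᵀ * cc a) * t + cc dᵀ * cc b
        - (tᴴ * (cc aᵀ * cc c) * t + tᴴ * (cc aᵀ * cc d) + (cc bᵀ * cc c) * t +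
          cc bᵀ * cc d) := by
        noncomm_ring
    _ = t - tᴴ := by
        rw [e1, e2, e3, e4]
        noncomm_ring

/-- the norm -/
noncomputable def nrm (x : Fin 6 → ℂ) : ℝ := ∑ i, Complex.normSq (x i)

theorem nrm_nonneg (x : Fin 6 → ℂ) : 0 ≤ nrm x := Finset.sum_nonneg fun _ _ => Complex.normSq_nonneg _

theorem nrm_eq_zero {x : Fin 6 → ℂ} (h : nrm x = 0) : x = 0 := by
  funext i
  have h1 := (Finset.sum_eq_zero_iff_of_nonneg fun i _ => Complex.normSq_nonneg (x i)).1 h i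
    (Finset.mem_univ i)
  exact Complex.normSq_eq_zero.1 h1

theorem dot_star (x : Fin 6 → ℂ) : x ⬝ᵥ star x = ((nrm x : ℝ) : ℂ) := by
  unfold nrm dotProduct
  push_cast
  refine Finset.sum_congr rfl fun i _ => ?_
  rw [Pi.star_apply, Complex.star_def, Complex.mul_conj]

theorem E_unit (κ : ℂ) (hκ : κ ≠ 0) (E F : Matrix (Fin 6) (Fin 6) ℂ)
    (h : Eᴴ * F - Fᴴ * E = κ • 1) : IsUnit E.det := by
  rw [isUnit_iff_ne_zero]
  intro h0
  obtain ⟨v, hv, hv2⟩ := Matrix.exists_mulVec_eq_zero_iff.2 h0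
  have h1 : star v ⬝ᵥ ((Eᴴ * F - Fᴴ * E) *ᵥ v) = 0 := by
    rw [Matrix.sub_mulVec, ← Matrix.mulVec_mulVec, ← Matrix.mulVec_mulVec, hv2,
      Matrix.mulVec_zero, sub_zero, Matrix.dotProduct_mulVec, ← Matrix.star_mulVec, hv2]
    simp
  rw [h, Matrix.smul_mulVec, Matrix.one_mulVec, dotProduct_smul, smul_eq_mul] at h1
  have h2 := (mul_eq_zero.1 h1).resolve_left hκ
  rw [dotProduct_comm, dot_star] at h2
  exact hv (nrm_eq_zero (by exact_mod_cast h2))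

/-- the projection attached to a decomposition -/
theorem proj (κ : ℂ) (hκ : κ ≠ 0) (a b c d : Matrix (Fin 6) (Fin 6) ℤ)
    (h1 : cᵀ * a = aᵀ * c) (h2 : dᵀ * b = bᵀ * d) (h3 : aᵀ * d - cᵀ * b = 1)
    (ht : t - tᴴ = κ • 1) (T' : Matrix (Fin 6) (Fin 6) ℂ)
    (hT : cc a * t + cc b = T' * (cc c * t + cc d)) (K : Matrix (Fin 6) (Fin 6) ℤ)
    (hK : K * K = K) (hKs : Kᵀ = K) (hc : cc K * T' = T' * cc K) :
    ∃ Δ : Matrix (Fin 6) (Fin 6) ℂ, (cc c * t + cc d) * Δ = cc K * (cc c * t + cc d) ∧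
      Δ * Δ = Δ ∧ Δᴴ = Δ ∧
      (∃ A1 B1 : Matrix (Fin 6) (Fin 6) ℤ, t * Δ = cc A1 * t + cc B1) ∧
      (∃ C1 D1 : Matrix (Fin 6) (Fin 6) ℤ, Δ = cc C1 * t + cc D1) := by
  have hEF := EF (t := t) a b c d h1 h2 h3
  have h4 : dᵀ * a - bᵀ * c = 1 := by
    have := congrArg Matrix.transpose h3
    simpa using this
  have e1 : cc cᵀ * cc a = cc aᵀ * cc c := by rw [← cc_mul, ← cc_mul, h1]
  have e2 : cc dᵀ * cc b = cc bᵀ * cc d := by rw [← cc_mul, ← cc_mul, h2]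
  have e3 : cc aᵀ * cc d = 1 + cc cᵀ * cc b := by
    rw [← cc_mul, ← cc_mul, ← cc_one, ← cc_add, ← h3]
    congr 1
    abel
  have e4 : cc dᵀ * cc a = 1 + cc bᵀ * cc c := by
    rw [← cc_mul, ← cc_mul, ← cc_one, ← cc_add, ← h4]
    congr 1
    abel
  have hkk : cc K * cc K = cc K := by rw [← cc_mul, hK]
  have hks : (cc K)ᴴ = cc K := by rw [cc_conjTranspose, hKs]
  obtain ⟨E, hE⟩ : ∃ E, E = cc c * t + cc d := ⟨_, rfl⟩
  obtain ⟨F, hF⟩ : ∃ F, F = cc a * t + cc b := ⟨_, rfl⟩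
  rw [← hE, ← hF] at hEF hT
  rw [← hE]
  rw [ht] at hEF
  have hu := E_unit κ hκ E F hEF
  have u1 : E⁻¹ * E = 1 := Matrix.nonsing_inv_mul E hu
  have u2 : E * E⁻¹ = 1 := Matrix.mul_nonsing_inv E hu
  have g1 : (cc aᵀ - cc cᵀ * T') * E = 1 := by
    rw [sub_mul, mul_assoc, ← hT, hE, hF]
    calc cc aᵀ * (cc c * t + cc d) - cc cᵀ * (cc a * t + cc b)
        = (cc aᵀ * cc c) * t + cc aᵀ * cc d - ((cc cᵀ * cc a) * t + cc cᵀ * cc b) := by
          noncomm_ring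
      _ = 1 := by
          rw [e1, e3]
          noncomm_ring
  have g2 : (cc dᵀ * T' - cc bᵀ) * E = t := by
    rw [sub_mul, mul_assoc, ← hT, hE, hF]
    calc cc dᵀ * (cc a * t + cc b) - cc bᵀ * (cc c * t + cc d)
        = (cc dᵀ * cc a) * t + cc dᵀ * cc b - ((cc bᵀ * cc c) * t + cc bᵀ * cc d) := by
          noncomm_ring
      _ = t := by
          rw [e2, e4]
          noncomm_ring
  have g3 : cc aᵀ - cc cᵀ * T' = E⁻¹ := by
    calc cc aᵀ - cc cᵀ * T' = (cc aᵀ - cc cᵀ * T') * (E * E⁻¹) := by rw [u2, mul_one]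
      _ = E⁻¹ := by rw [← mul_assoc, g1, one_mul]
  have g4 : cc dᵀ * T' - cc bᵀ = t * E⁻¹ := by
    calc cc dᵀ * T' - cc bᵀ = (cc dᵀ * T' - cc bᵀ) * (E * E⁻¹) := by rw [u2, mul_one]
      _ = t * E⁻¹ := by rw [← mul_assoc, g2]
  have hKF : cc K * F = T' * (cc K * E) := by
    rw [hT, ← mul_assoc, hc, mul_assoc]
  refine ⟨E⁻¹ * cc K * E, ?_, ?_, ?_, ?_, ?_⟩
  · rw [← mul_assoc, ← mul_assoc, u2, one_mul]
  · calc E⁻¹ * cc K * E * (E⁻¹ * cc K * E) = E⁻¹ * cc K * (E * E⁻¹) * cc K * E := by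
          noncomm_ring
      _ = E⁻¹ * (cc K * cc K) * E := by rw [u2]; noncomm_ring
      _ = E⁻¹ * cc K * E := by rw [hkk]
  · -- hermitian
    obtain ⟨Y, hY⟩ : ∃ Y, Y = T' - T'ᴴ := ⟨_, rfl⟩
    have y1 : Eᴴ * Y * E = κ • 1 := by
      rw [← hEF, hT, hY, Matrix.conjTranspose_mul]
      noncomm_ring
    have y2 : cc K * Y = Y * cc K := by
      have hc' : T'ᴴ * cc K = cc K * T'ᴴ := by
        have := congrArg Matrix.conjTranspose hc
        rwa [Matrix.conjTranspose_mul, Matrix.conjTranspose_mul, hks] at this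
      rw [hY, mul_sub, sub_mul, hc, hc']
    have y3 : Y * E * κ⁻¹ • Eᴴ = 1 := by
      have y4 : Eᴴ * (κ⁻¹ • (Y * E)) = 1 := by
        rw [mul_smul_comm, ← mul_assoc, y1, smul_smul, inv_mul_cancel₀ hκ, one_smul]
      have y5 := mul_eq_one_comm.1 y4
      rw [smul_mul_assoc] at y5
      rw [mul_smul_comm]
      exact y5
    have y6 : (E⁻¹)ᴴ = κ⁻¹ • (Y * E) := by
      have y7 : (E⁻¹)ᴴ * Eᴴ = 1 := by
        rw [← Matrix.conjTranspose_mul, u2, Matrix.conjTranspose_one]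
      have y8 : κ⁻¹ • (Y * E) * Eᴴ = 1 := by
        rw [smul_mul_assoc, ← mul_smul_comm]
        exact y3
      have y9 : Eᴴ * (κ⁻¹ • (Y * E)) = 1 := mul_eq_one_comm.1 y8
      calc (E⁻¹)ᴴ = (E⁻¹)ᴴ * (Eᴴ * (κ⁻¹ • (Y * E))) := by rw [y9, mul_one]
        _ = κ⁻¹ • (Y * E) := by rw [← mul_assoc, y7, one_mul]
    rw [Matrix.conjTranspose_mul, Matrix.conjTranspose_mul, hks, y6]
    have y10 : Eᴴ * (cc K * κ⁻¹ • (Y * E)) = κ⁻¹ • (Eᴴ * Y * E * (E⁻¹ * cc K * E)) := by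
      rw [mul_smul_comm, mul_smul_comm]
      congr 1
      calc Eᴴ * (cc K * (Y * E)) = Eᴴ * (cc K * Y) * E := by noncomm_ring
        _ = Eᴴ * Y * (1 * cc K) * E := by rw [y2]; noncomm_ring
        _ = Eᴴ * Y * E * (E⁻¹ * cc K * E) := by rw [← u2]; noncomm_ring
    rw [y10, y1, smul_mul_assoc, one_mul, smul_smul, inv_mul_cancel₀ hκ, one_smul]
  · refine ⟨dᵀ * K * a - bᵀ * K * c, dᵀ * K * b - bᵀ * K * d, ?_⟩
    rw [cc_sub, cc_sub, cc_mul, cc_mul, cc_mul, cc_mul, cc_mul, cc_mul, cc_mul, cc_mul]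
    calc t * (E⁻¹ * cc K * E) = (t * E⁻¹) * (cc K * E) := by noncomm_ring
      _ = cc dᵀ * (T' * (cc K * E)) - cc bᵀ * (cc K * E) := by
          rw [← g4]
          noncomm_ring
      _ = cc dᵀ * (cc K * F) - cc bᵀ * (cc K * E) := by rw [← hKF]
      _ = _ := by
          rw [hE, hF]
          noncomm_ring
  · refine ⟨aᵀ * K * c - cᵀ * K * a, aᵀ * K * d - cᵀ * K * b, ?_⟩
    rw [cc_sub, cc_sub, cc_mul, cc_mul, cc_mul, cc_mul, cc_mul, cc_mul, cc_mul, cc_mul]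
    calc E⁻¹ * cc K * E = E⁻¹ * (cc K * E) := by noncomm_ring
      _ = cc aᵀ * (cc K * E) - cc cᵀ * (T' * (cc K * E)) := by
          rw [← g3]
          noncomm_ring
      _ = cc aᵀ * (cc K * E) - cc cᵀ * (cc K * F) := by rw [← hKF]
      _ = _ := by
          rw [hE, hF]
          noncomm_ring

end general

end Pool.Agent.N139.G00
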