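import Pool.Agent.N139.G00.Indec

/-!
# Indecomposability of the special ppav
-/

namespace Pool.Agent.N139.G00

open Complex Matrix
open scoped Real
open Pool.Agent.N139.Th

/-- integer vectors as complex vectors -/
noncomputable def cv (p : Fin 6 → ℤ) : Fin 6 → ℂ := fun i => (p i : ℂ)

/-- lattice vectors -/
noncomputable def lv (p q : Fin 6 → ℤ) : Fin 6 → ℂ := cv p ᵥ* T + cv q

theorem cv_vecMul (p : Fin 6 → ℤ) (A : Matrix (Fin 6) (Fin 6) ℤ) :
    cv p ᵥ* cc A = cv (p ᵥ* A) := by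
  funext i
  simp [cv, cc, vecMul, dotProduct]

theorem cv_add (p q : Fin 6 → ℤ) : cv p + cv q = cv (p + q) := by
  funext i
  simp [cv]

theorem cv_sub (p q : Fin 6 → ℤ) : cv p - cv q = cv (p - q) := by
  funext i
  simp [cv]

theorem lv_apply (p q : Fin 6 → ℤ) (i : Fin 6) :
    lv p q i = ((p i : ℂ) * rho + (rr p q i : ℤ)) / 2 := by
  rw [lv, Pi.add_apply, vecMul, dotProduct, rr]
  simp only [T_apply, cv]
  have h1 : ∀ j, (p j : ℂ) * (((if j = i then rho else 0) + (S6 j i : ℂ)) / 2) =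
      (if j = i then (p j : ℂ) * rho / 2 else 0) + (p j : ℂ) * S6 j i / 2 := by
    intro j
    split_ifs <;> ring
  rw [Finset.sum_congr rfl fun j _ => h1 j, Finset.sum_add_distrib,
    Finset.sum_ite_eq' Finset.univ i, if_pos (Finset.mem_univ i), ← Finset.sum_div]
  push_cast
  ring

theorem lv_normSq (x y : ℤ) : 4 * Complex.normSq (((x : ℂ) * rho + (y : ℤ)) / 2) =
    ((x ^ 2 - x * y + y ^ 2 : ℤ) : ℝ) := by
  have h3 : √3 * √3 = 3 := Real.mul_self_sqrt (by norm_num)
  rw [map_div₀, Complex.normSq_apply]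
  have h2 : Complex.normSq (2 : ℂ) = 4 := by
    rw [Complex.normSq_ofNat]
    norm_num
  rw [h2]
  simp [rho]
  linear_combination ((x : ℝ) ^ 2 / 4) * h3

theorem lv_nrm (p q : Fin 6 → ℤ) : 4 * nrm (lv p q) =
    ((∑ i, (p i ^ 2 - p i * rr p q i + rr p q i ^ 2) : ℤ) : ℝ) := by
  rw [nrm, Finset.mul_sum]
  push_cast
  refine Finset.sum_congr rfl fun i _ => ?_
  rw [lv_apply, lv_normSq]
  push_cast
  ring

theorem lv_short (p q : Fin 6 → ℤ) (h : nrm (lv p q) < 1) : lv p q = 0 := by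
  have h1 := lv_nrm p q
  have h2 : ((∑ i, (p i ^ 2 - p i * rr p q i + rr p q i ^ 2) : ℤ) : ℝ) < 4 := by
    rw [← h1]
    linarith
  have h3 : ∑ i, (p i ^ 2 - p i * rr p q i + rr p q i ^ 2) < 4 := by exact_mod_cast h2
  obtain ⟨h4, h5⟩ := min_norm p q h3
  funext i
  rw [lv_apply, h5 i, h4]
  simp

theorem nrm_split (Δ : Matrix (Fin 6) (Fin 6) ℂ) (h1 : Δ * Δ = Δ) (h2 : Δᴴ = Δ)
    (x : Fin 6 → ℂ) : nrm x = nrm (x ᵥ* Δ) + nrm (x - x ᵥ* Δ) := by
  have e1 := dot_star x
  have e2 := dot_star (x ᵥ* Δ)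
  have e3 := dot_star (x - x ᵥ* Δ)
  have e4 : (x ᵥ* Δ) ⬝ᵥ star (x ᵥ* Δ) = x ⬝ᵥ star (x ᵥ* Δ) := by
    rw [Matrix.star_vecMul, h2, ← Matrix.dotProduct_mulVec, Matrix.mulVec_mulVec, h1]
  have e5 : (x ᵥ* Δ) ⬝ᵥ star x = x ⬝ᵥ star (x ᵥ* Δ) := by
    rw [Matrix.star_vecMul, h2, ← Matrix.dotProduct_mulVec]
  rw [star_sub, sub_dotProduct, dotProduct_sub, dotProduct_sub, e4, e5, sub_self, sub_zero, e1]
    at e3
  rw [e4] at e2
  rw [e2] at e3
  have e6 : (nrm x : ℂ) = ((nrm (x ᵥ* Δ) + nrm (x - x ᵥ* Δ) : ℝ) : ℂ) := by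
    push_cast
    linear_combination e3
  exact_mod_cast e6

theorem indec_core (κ : ℂ) (hκ : κ ≠ 0) (a b c d : Matrix (Fin 6) (Fin 6) ℤ)
    (h1 : cᵀ * a = aᵀ * c) (h2 : dᵀ * b = bᵀ * d) (h3 : aᵀ * d - cᵀ * b = 1)
    (ht : T - Tᴴ = κ • 1) (T' : Matrix (Fin 6) (Fin 6) ℂ)
    (hT : cc a * T + cc b = T' * (cc c * T + cc d)) (K : Matrix (Fin 6) (Fin 6) ℤ)
    (hK : K * K = K) (hKs : Kᵀ = K) (hc : cc K * T' = T' * cc K)
    (hu : IsUnit (cc c * T + cc d).det) :
    cc K = 0 ∨ cc K = 1 := by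
  obtain ⟨Δ, hΔ, hid, hherm, ⟨A1, B1, hA⟩, ⟨C1, D1, hC⟩⟩ :=
    proj κ hκ a b c d h1 h2 h3 ht T' hT K hK hKs hc
  have hlat : ∀ p q : Fin 6 → ℤ, lv p q ᵥ* Δ =
      lv (p ᵥ* A1 + q ᵥ* C1) (p ᵥ* B1 + q ᵥ* D1) := by
    intro p q
    rw [lv, Matrix.add_vecMul, Matrix.vecMul_vecMul, hA]
    conv_lhs => rw [hC]
    rw [Matrix.vecMul_add, Matrix.vecMul_add, ← Matrix.vecMul_vecMul, ← Matrix.vecMul_vecMul,
      cv_vecMul, cv_vecMul, cv_vecMul, cv_vecMul, lv, ← cv_add, ← cv_add, Matrix.add_vecMul]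
    abel
  have hsub : ∀ p q p' q' : Fin 6 → ℤ, lv p q - lv p' q' = lv (p - p') (q - q') := by
    intro p q p' q'
    rw [lv, lv, lv, ← cv_sub, ← cv_sub, Matrix.sub_vecMul]
    abel
  have key : ∀ p q : Fin 6 → ℤ, nrm (lv p q) = 1 → lv p q ᵥ* Δ = 0 ∨ lv p q ᵥ* Δ = lv p q := by
    intro p q hn
    have hs := nrm_split Δ hid hherm (lv p q)
    rw [hn] at hs
    have n1 := nrm_nonneg (lv p q ᵥ* Δ)
    have n2 := nrm_nonneg (lv p q - lv p q ᵥ* Δ)
    by_cases h4 : nrm (lv p q ᵥ* Δ) < 1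
    · left
      rw [hlat] at h4 ⊢
      exact lv_short _ _ h4
    · right
      have h5 : nrm (lv p q - lv p q ᵥ* Δ) < 1 := by linarith
      rw [hlat, hsub] at h5
      have h6 := lv_short _ _ h5
      rw [← hsub, ← hlat, sub_eq_zero] at h6
      exact h6.symm
  -- rows of Δ
  have hrow : ∀ i, Δ i = 0 ∨ Δ i = Pi.single i 1 := by
    intro i
    have e1 : lv 0 (Pi.single i 1) = Pi.single i 1 := by
      have : cv 0 = 0 := by
        funext j
        simp [cv]
      rw [lv, this, Matrix.zero_vecMul, zero_add]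
      funext j
      by_cases h : j = i
      · subst h
        simp [cv]
      · simp [cv, h]
    have e2 : nrm (lv 0 (Pi.single i 1)) = 1 := by
      rw [e1, nrm, Finset.sum_eq_single i]
      · simp
      · intro j _ hj
        simp [hj]
      · simp
    have h4 := key 0 (Pi.single i 1) e2
    rw [e1, Matrix.single_one_vecMul] at h4
    exact h4
  have hdiag : ∃ η : Fin 6 → ℂ, Δ = Matrix.diagonal η := by
    refine ⟨fun i => Δ i i, ?_⟩
    ext i j
    rcases hrow i with h | h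
    · by_cases hij : i = j
      · subst hij
        simp
      · rw [Matrix.diagonal_apply_ne _ hij, h]
        rfl
    · by_cases hij : i = j
      · subst hij
        simp
      · rw [Matrix.diagonal_apply_ne _ hij, h]
        simp [Ne.symm hij]
  obtain ⟨η, hη⟩ := hdiag
  -- rows of T
  have hTrow : ∀ i, (∀ j, T i j * η j = 0) ∨ (∀ j, T i j * η j = T i j) := by
    intro i
    have e1 : lv (Pi.single i 1) 0 = T i := by
      have h4 : cv 0 = 0 := by
        funext j
        simp [cv]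
      have h5 : cv (Pi.single i 1) = Pi.single i 1 := by
        funext j
        by_cases h : j = i
        · subst h
          simp [cv]
        · simp [cv, h]
      rw [lv, h4, add_zero, h5, Matrix.single_one_vecMul]
      rfl
    have e2 : nrm (lv (Pi.single i 1) 0) = 1 := by
      have h6 := lv_nrm (Pi.single i 1) 0
      have h7 : ∀ i : Fin 6, ∑ j, ((Pi.single i 1 : Fin 6 → ℤ) j ^ 2 -
          (Pi.single i 1 : Fin 6 → ℤ) j * rr (Pi.single i 1) 0 j +
          rr (Pi.single i 1) 0 j ^ 2) = 4 := by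
        decide +kernel
      rw [h7 i] at h6
      push_cast at h6
      linarith
    have h8 := key _ _ e2
    rw [e1, hη] at h8
    rcases h8 with h8 | h8
    · left
      intro j
      have := congrFun h8 j
      rwa [Matrix.vecMul_diagonal] at this
    · right
      intro j
      have := congrFun h8 j
      rwa [Matrix.vecMul_diagonal] at this
  have hne : ∀ i j : Fin 6, S6 i j = 1 ∨ i = j → T i j ≠ 0 := by
    intro i j h h0
    rw [T_apply] at h0
    by_cases hij : i = j
    · rw [if_pos hij] at h0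
      have h9 := congrArg Complex.im h0
      have h10 := rho_im
      simp at h9
      linarith
    · rw [if_neg hij] at h0
      rcases h with h | h
      · rw [h] at h0
        norm_num at h0
      · exact hij h
  have hc1 : ∀ i j, S6 i j = 1 → η i = η j ∧ (η i = 0 ∨ η i = 1) := by
    intro i j hS
    have n1 := hne i i (Or.inr rfl)
    have n2 := hne i j (Or.inl hS)
    rcases hTrow i with h | h
    · have a1 := (mul_eq_zero.1 (h i)).resolve_left n1
      have a2 := (mul_eq_zero.1 (h j)).resolve_left n2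
      exact ⟨by rw [a1, a2], Or.inl a1⟩
    · have a1 : η i = 1 := by
        have := h i
        exact mul_left_cancel₀ n1 (by rw [this, mul_one])
      have a2 : η j = 1 := by
        have := h j
        exact mul_left_cancel₀ n2 (by rw [this, mul_one])
      exact ⟨by rw [a1, a2], Or.inr a1⟩
  have g1 := hc1 0 1 (by decide +kernel)
  have g2 := hc1 0 2 (by decide +kernel)
  have g3 := hc1 0 3 (by decide +kernel)
  have g4 := hc1 3 4 (by decide +kernel)
  have g5 := hc1 3 5 (by decide +kernel)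
  have hall : ∀ i, η i = η 0 := by
    intro i
    fin_cases i
    · rfl
    · exact g1.1.symm
    · exact g2.1.symm
    · exact g3.1.symm
    · exact (g3.1.trans g4.1).symm
    · exact (g3.1.trans g5.1).symm
  rcases g1.2 with h | h
  · left
    have hz : Δ = 0 := by
      rw [hη]
      ext i j
      rw [Matrix.diagonal_apply, hall i, h]
      simp
    rw [hz, mul_zero] at hΔ
    have := congrArg (· * (cc c * T + cc d)⁻¹) hΔ
    simp only [zero_mul] at this
    rw [Matrix.mul_nonsing_inv_cancel_right _ _ hu] at this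
    exact this.symm
  · right
    have hz : Δ = 1 := by
      rw [hη]
      ext i j
      rw [Matrix.diagonal_apply, hall i, h, Matrix.one_apply]
    rw [hz, mul_one] at hΔ
    have := congrArg (· * (cc c * T + cc d)⁻¹) hΔ
    rw [Matrix.mul_nonsing_inv_cancel_right _ _ hu, Matrix.mul_nonsing_inv _ hu] at this
    exact this.symm

end Pool.Agent.N139.G00
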