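import Mathlib

/-!
# Taylor series of entire functions at zero
-/

namespace Pool.Agent.N139.G00

open PowerSeries

/-- Taylor coefficients at zero -/
noncomputable def tc (f : ℂ → ℂ) (n : ℕ) : ℂ := iteratedDeriv n f 0 / (n.factorial : ℂ)

/-- Taylor series at zero -/
noncomputable def tay (f : ℂ → ℂ) : PowerSeries ℂ := PowerSeries.mk (tc f)

theorem coeff_tay (f : ℂ → ℂ) (n : ℕ) : coeff n (tay f) = tc f n := by
  rw [tay, coeff_mk]

theorem tc_zero (f : ℂ → ℂ) : tc f 0 = f 0 := by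
  simp [tc]

theorem tc_one (f : ℂ → ℂ) : tc f 1 = deriv f 0 := by
  simp [tc]

theorem tay_mul {f g : ℂ → ℂ} (hf : Differentiable ℂ f) (hg : Differentiable ℂ g) :
    tay (fun z => f z * g z) = tay f * tay g := by
  ext n
  rw [coeff_tay, coeff_mul, tc]
  have h := iteratedDeriv_fun_mul (n := n) (x := (0 : ℂ)) hf.contDiff.contDiffAt
    hg.contDiff.contDiffAt
  rw [h, Finset.Nat.sum_antidiagonal_eq_sum_range_succ_mk, Finset.sum_div]
  refine Finset.sum_congr rfl fun i hi => ?_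
  rw [coeff_tay, coeff_tay, tc, tc]
  have hi' : i ≤ n := Nat.lt_succ_iff.1 (Finset.mem_range.1 hi)
  have h1 : ((n.choose i : ℕ) : ℂ) * (i.factorial : ℂ) * ((n - i).factorial : ℂ) =
      (n.factorial : ℂ) := by
    exact_mod_cast Nat.choose_mul_factorial_mul_factorial hi'
  have h2 : (i.factorial : ℂ) ≠ 0 := by exact_mod_cast Nat.factorial_ne_zero i
  have h3 : ((n - i).factorial : ℂ) ≠ 0 := by exact_mod_cast Nat.factorial_ne_zero (n - i)
  have h5 : ((n.choose i : ℕ) : ℂ) ≠ 0 := by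
    exact_mod_cast (Nat.choose_pos hi').ne'
  rw [← h1]
  field_simp

theorem tc_const_mul (c : ℂ) (f : ℂ → ℂ) (n : ℕ) : tc (fun z => c * f z) n = c * tc f n := by
  rw [tc, tc, iteratedDeriv_const_mul_field]
  ring

theorem tc_scale {f : ℂ → ℂ} (hf : Differentiable ℂ f) (c : ℂ) (n : ℕ) :
    tc (fun z => f (c * z)) n = c ^ n * tc f n := by
  rw [tc, tc, iteratedDeriv_comp_const_mul hf.contDiff]
  simp only [mul_zero]
  ring

theorem tc_sum {ι : Type*} (s : Finset ι) (f : ι → ℂ → ℂ) (hf : ∀ i, Differentiable ℂ (f i))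
    (n : ℕ) : tc (fun z => ∑ i ∈ s, f i z) n = ∑ i ∈ s, tc (f i) n := by
  classical
  induction s using Finset.induction_on with
  | empty => simp [tc]
  | insert a s ha ih =>
    rw [Finset.sum_insert ha, ← ih]
    simp only [Finset.sum_insert ha]
    have h1 : Differentiable ℂ (fun z => ∑ i ∈ s, f i z) :=
      Differentiable.fun_sum fun i _ => hf i
    rw [tc, iteratedDeriv_fun_add (hf a).contDiff.contDiffAt h1.contDiff.contDiffAt, add_div]
    rfl

theorem tay_prod {ι : Type*} (s : Finset ι) (f : ι → ℂ → ℂ) (hf : ∀ i, Differentiable ℂ (f i)) :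
    tay (fun z => ∏ i ∈ s, f i z) = ∏ i ∈ s, tay (f i) := by
  classical
  induction s using Finset.induction_on with
  | empty =>
    simp only [Finset.prod_empty]
    ext n
    rw [coeff_tay, tc, iteratedDeriv_const, coeff_one]
    by_cases h : n = 0
    · simp [h]
    · simp [h]
  | insert a s ha ih =>
    rw [Finset.prod_insert ha, ← ih]
    simp only [Finset.prod_insert ha]
    have h1 : Differentiable ℂ (fun z => ∏ i ∈ s, f i z) :=
      Differentiable.fun_finsetProd fun i _ => hf i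
    exact tay_mul (hf a) h1

/-- even jets of order four -/
def J (F : PowerSeries ℂ) (a b c : ℂ) : Prop :=
  coeff 0 F = a ∧ coeff 1 F = 0 ∧ coeff 2 F = b ∧ coeff 3 F = 0 ∧ coeff 4 F = c

theorem coeff_mul_0 (F G : PowerSeries ℂ) : coeff 0 (F * G) = coeff 0 F * coeff 0 G := by
  rw [coeff_mul]
  simp

theorem coeff_mul_1 (F G : PowerSeries ℂ) : coeff 1 (F * G) =
    coeff 0 F * coeff 1 G + coeff 1 F * coeff 0 G := by
  rw [coeff_mul]
  simp [Finset.Nat.antidiagonal_succ]

theorem coeff_mul_2 (F G : PowerSeries ℂ) : coeff 2 (F * G) =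
    coeff 0 F * coeff 2 G + coeff 1 F * coeff 1 G + coeff 2 F * coeff 0 G := by
  rw [coeff_mul]
  simp [Finset.Nat.antidiagonal_succ]
  ring

theorem coeff_mul_3 (F G : PowerSeries ℂ) : coeff 3 (F * G) =
    coeff 0 F * coeff 3 G + coeff 1 F * coeff 2 G + coeff 2 F * coeff 1 G +
      coeff 3 F * coeff 0 G := by
  rw [coeff_mul]
  simp [Finset.Nat.antidiagonal_succ]
  ring

theorem coeff_mul_4 (F G : PowerSeries ℂ) : coeff 4 (F * G) =
    coeff 0 F * coeff 4 G + coeff 1 F * coeff 3 G + coeff 2 F * coeff 2 G +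
      coeff 3 F * coeff 1 G + coeff 4 F * coeff 0 G := by
  rw [coeff_mul]
  simp [Finset.Nat.antidiagonal_succ]
  ring

theorem J_mul {F G : PowerSeries ℂ} {a b c a' b' c' : ℂ} (hF : J F a b c) (hG : J G a' b' c') :
    J (F * G) (a * a') (a * b' + b * a') (a * c' + b * b' + c * a') := by
  obtain ⟨f0, f1, f2, f3, f4⟩ := hF
  obtain ⟨g0, g1, g2, g3, g4⟩ := hG
  refine ⟨?_, ?_, ?_, ?_, ?_⟩
  · rw [coeff_mul_0, f0, g0]
  · rw [coeff_mul_1, f0, g0, f1, g1]
    ring
  · rw [coeff_mul_2, f0, g0, f1, g1, f2, g2]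
    ring
  · rw [coeff_mul_3, f0, g0, f1, g1, f2, g2, f3, g3]
    ring
  · rw [coeff_mul_4, f0, g0, f1, g1, f2, g2, f3, g3, f4, g4]
    ring

theorem J_prod {ι : Type*} (s : Finset ι) (F : ι → PowerSeries ℂ) (b c : ι → ℂ)
    (h : ∀ i ∈ s, J (F i) 1 (b i) (c i)) :
    J (∏ i ∈ s, F i) 1 (∑ i ∈ s, b i)
      (∑ i ∈ s, (c i - b i ^ 2 / 2) + (∑ i ∈ s, b i) ^ 2 / 2) := by
  classical
  induction s using Finset.induction_on with
  | empty =>
    simp only [Finset.prod_empty, Finset.sum_empty]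
    refine ⟨?_, ?_, ?_, ?_, ?_⟩ <;> simp [coeff_one]
  | insert a s ha ih =>
    rw [Finset.prod_insert ha, Finset.sum_insert ha, Finset.sum_insert ha]
    have h1 := ih fun i hi => h i (Finset.mem_insert_of_mem hi)
    have h2 := J_mul (h a (Finset.mem_insert_self a s)) h1
    convert h2 using 1 <;> ring

end Pool.Agent.N139.G00
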