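import Pool.Agent.N139.G00.Final

/-!
# No relation of order four at the origin
-/

namespace Pool.Agent.N139.G00

open Complex Matrix
open scoped Real
open Pool.Agent.N139.Th

/-- the characters -/
noncomputable def chi : Fin 4 → ℂ := ![1, rho ^ 2, rho, 0]

theorem chi_eq (t : Fin 4) (ht : t ≠ 3) : rho ^ (2 * t.val) = chi t := by
  fin_cases t
  · simp [chi]
  · simp [chi]
  · change rho ^ 4 = rho
    linear_combination rho * rho_cube
  · exact absurd rfl ht

/-- next type -/
def nxt (t : Fin 4) : Fin 4 := if t = 0 then 1 else if t = 1 then 2 else if t = 2 then 0 else 3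

theorem chi_nxt (t : Fin 4) : chi (nxt t) = rho ^ 2 * chi t := by
  fin_cases t
  · simp [chi, nxt]
  · simp only [chi, nxt]
    simp
    linear_combination (-rho) * rho_cube
  · simp only [chi, nxt]
    simp
    linear_combination -rho_cube
  · simp [chi, nxt]

theorem even_class {ι : Type*} [Fintype ι] (e e' e'' : Fin 6 → Fin 2) (he : ∀ i, ty e i ≠ 3)
    (he' : ∀ i, ty e' i = nxt (ty e i)) (he'' : ∀ i, ty e'' i = nxt (nxt (ty e i)))
    (U : Fin 6 → ℂ) (v : ι → Fin 6 → ℂ) (β : ι → ℂ) (δ : ℂ)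
    (H : ∀ x, 24 * tc (fun s => P x (dir U s)) 4 + ∑ j, β j * tc (fun s => P x (dir (v j) s)) 2 +
      δ * tc (fun s => P x (dir U s)) 0 = 0) :
    (∑ i, chi (ty e i) * U i ^ 2) ^ 2 = 2 * ∑ i, (chi (ty e i) * U i ^ 2) ^ 2 := by
  have hn : ∀ t : Fin 4, t ≠ 3 → nxt t ≠ 3 := by decide
  have hE : ∀ (x : Fin 6 → Fin 2) (c : ℂ), (∀ i, ty x i ≠ 3) → (∀ i, chi (ty x i) = c * chi (ty e i)) →
      24 * (kap2 ^ 2 / 2 * (c ^ 2 * ((∑ i, chi (ty e i) * U i ^ 2) ^ 2 -
        2 * ∑ i, (chi (ty e i) * U i ^ 2) ^ 2))) +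
        c * ∑ j, β j * (kap2 * ∑ i, chi (ty e i) * v j i ^ 2) + δ = 0 := by
    intro x c hx hc
    have h := H x
    have hJ := J_even x hx U
    have h4 := hJ.2.2.2.2
    have h0 := hJ.1
    rw [coeff_tay] at h4 h0
    have h2 : ∀ j, tc (fun s => P x (dir (v j) s)) 2 =
        c * (kap2 * ∑ i, chi (ty e i) * v j i ^ 2) := by
      intro j
      have h2 := (J_even x hx (v j)).2.2.1
      rw [coeff_tay] at h2
      rw [h2]
      have h5 : ∑ i, rho ^ (2 * (ty x i).val) * v j i ^ 2 = c * ∑ i, chi (ty e i) * v j i ^ 2 := by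
        rw [Finset.mul_sum]
        refine Finset.sum_congr rfl fun i _ => ?_
        rw [chi_eq _ (hx i), hc i]
        ring
      rw [h5]
      ring
    have h5 : ∑ i, rho ^ (2 * (ty x i).val) * U i ^ 2 = c * ∑ i, chi (ty e i) * U i ^ 2 := by
      rw [Finset.mul_sum]
      refine Finset.sum_congr rfl fun i _ => ?_
      rw [chi_eq _ (hx i), hc i]
      ring
    have h6 : ∑ i, (rho ^ (2 * (ty x i).val) * U i ^ 2) ^ 2 =
        c ^ 2 * ∑ i, (chi (ty e i) * U i ^ 2) ^ 2 := by
      rw [Finset.mul_sum]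
      refine Finset.sum_congr rfl fun i _ => ?_
      rw [chi_eq _ (hx i), hc i]
      ring
    have h7 : ∑ j, β j * tc (fun s => P x (dir (v j) s)) 2 =
        c * ∑ j, β j * (kap2 * ∑ i, chi (ty e i) * v j i ^ 2) := by
      rw [Finset.mul_sum]
      refine Finset.sum_congr rfl fun j _ => ?_
      rw [h2 j]
      ring
    rw [h4, h0, h5, h6, h7] at h
    linear_combination h
  have a0 := hE e 1 he (fun i => (one_mul _).symm)
  have a1 := hE e' (rho ^ 2) (fun i => by rw [he' i]; exact hn _ (he i))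
    (fun i => by rw [he' i, chi_nxt])
  have a2 := hE e'' (rho ^ 4) (fun i => by rw [he'' i]; exact hn _ (hn _ (he i)))
    (fun i => by rw [he'' i, chi_nxt, chi_nxt]; ring)
  generalize (∑ i, chi (ty e i) * U i ^ 2) = S at *
  generalize (∑ i, (chi (ty e i) * U i ^ 2) ^ 2) = S2 at *
  generalize (∑ j, β j * (kap2 * ∑ i, chi (ty e i) * v j i ^ 2)) = L at *
  have hk := kap_rel.1
  have h8 : kap2 ^ 2 * (S ^ 2 - 2 * S2) = 0 := by
    have r3 := rho_cube
    have r2 := rho_sq
    have r6 : rho ^ 6 = 1 := by linear_combination (rho ^ 3 + 1) * r3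
    have r12 : rho ^ 12 = 1 := by linear_combination (rho ^ 6 + 1) * r6
    have r8 : rho ^ 8 = rho ^ 2 := by linear_combination (rho ^ 2) * r6
    have r4 : rho ^ 4 = rho := by linear_combination rho * r3
    linear_combination (1 / 36) * (a0 + rho ^ 2 * a1 + rho ^ 4 * a2) -
      (1 / 3) * (kap2 ^ 2 * (S ^ 2 - 2 * S2)) * (r6 + r12) -
      (1 / 36) * L * (r4 + r8 + r2) - (1 / 36) * δ * (r4 + r2)
  have h9 := (mul_eq_zero.1 h8).resolve_left (pow_ne_zero 2 hk)
  linear_combination h9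

theorem pair_class {ι : Type*} [Fintype ι] (e e' : Fin 6 → Fin 2) (i l : Fin 6) (hil : i ≠ l)
    (hi : ty e i = 3) (hl : ty e l = 3) (he : ∀ k, k ≠ i → k ≠ l → ty e k ≠ 3)
    (he' : ∀ k, ty e' k = nxt (ty e k))
    (U : Fin 6 → ℂ) (v : ι → Fin 6 → ℂ) (β : ι → ℂ) (δ : ℂ)
    (H : ∀ x, 24 * tc (fun s => P x (dir U s)) 4 + ∑ j, β j * tc (fun s => P x (dir (v j) s)) 2 +
      δ * tc (fun s => P x (dir U s)) 0 = 0) :
    U i ^ 2 * U l ^ 2 * ∑ k, chi (ty e k) * U k ^ 2 = 0 := by
  have hn : ∀ t : Fin 4, t ≠ 3 → nxt t ≠ 3 := by decide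
  have hs : ∀ x : Fin 6 → Fin 2, ty x i = 3 → ty x l = 3 → (∀ k, k ≠ i → k ≠ l → ty x k ≠ 3) →
      ∑ k ∈ (Finset.univ.erase i).erase l, rho ^ (2 * (ty x k).val) * U k ^ 2 =
      ∑ k, chi (ty x k) * U k ^ 2 := by
    intro x hi hl he
    have c3 : chi 3 = 0 := by simp [chi]
    rw [← Finset.add_sum_erase _ (fun k => chi (ty x k) * U k ^ 2) (Finset.mem_univ i),
      ← Finset.add_sum_erase _ (fun k => chi (ty x k) * U k ^ 2)
        (Finset.mem_erase.2 ⟨hil.symm, Finset.mem_univ l⟩)]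
    rw [hi, hl, c3, zero_mul, zero_mul, zero_add, zero_add]
    refine Finset.sum_congr rfl fun k hk => ?_
    rw [chi_eq _ (he k (Finset.ne_of_mem_erase (Finset.mem_of_mem_erase hk))
      (Finset.ne_of_mem_erase hk))]
  have hE : ∀ x : Fin 6 → Fin 2, ty x i = 3 → ty x l = 3 → (∀ k, k ≠ i → k ≠ l → ty x k ≠ 3) →
      24 * (mm ^ 2 * (U i * U l) * (kap2 * ∑ k, chi (ty x k) * U k ^ 2)) +
        ∑ j, β j * (mm ^ 2 * (v j i * v j l)) = 0 := by
    intro x h1 h2 h3
    have h := H x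
    have hJ := J_pair x i l hil h1 h2 h3 U
    have h4 := hJ.2.2.2.2
    have h0 := hJ.1
    rw [coeff_tay] at h4 h0
    have h5 : ∀ j, tc (fun s => P x (dir (v j) s)) 2 = mm ^ 2 * (v j i * v j l) := by
      intro j
      have h5 := (J_pair x i l hil h1 h2 h3 (v j)).2.2.1
      rw [coeff_tay] at h5
      exact h5
    have h6 : ∑ j, β j * tc (fun s => P x (dir (v j) s)) 2 =
        ∑ j, β j * (mm ^ 2 * (v j i * v j l)) := Finset.sum_congr rfl fun j _ => by rw [h5 j]
    rw [h4, h0, hs x h1 h2 h3, h6] at h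
    linear_combination h
  have a0 := hE e hi hl he
  have n3 : nxt 3 = 3 := by decide
  have a1 := hE e' (by rw [he', hi, n3]) (by rw [he', hl, n3])
    (fun k h1 h2 => by rw [he']; exact hn _ (he k h1 h2))
  have h6 : ∑ k, chi (ty e' k) * U k ^ 2 = rho ^ 2 * ∑ k, chi (ty e k) * U k ^ 2 := by
    rw [Finset.mul_sum]
    refine Finset.sum_congr rfl fun k _ => ?_
    rw [he', chi_nxt]
    ring
  rw [h6] at a1
  generalize (∑ k, chi (ty e k) * U k ^ 2) = S at *
  generalize (∑ j, β j * (mm ^ 2 * (v j i * v j l))) = L at *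
  have hk := kap_rel.1
  have hr : (1 - rho ^ 2) ≠ 0 := by
    intro h
    have h1 : rho = -2 := by linear_combination rho_sq + h
    have h2 := rho_im
    rw [h1] at h2
    simp at h2
  have h8 : (mm ^ 2 * kap2 * (1 - rho ^ 2)) * (U i * U l * S) = 0 := by
    linear_combination (1 / 24) * (a0 - a1)
  have h9 := (mul_eq_zero.1 h8).resolve_left
    (mul_ne_zero (mul_ne_zero (pow_ne_zero 2 mm_ne) hk) hr)
  linear_combination (U i * U l) * h9

/-- no relation of order four -/
theorem no_four {ι : Type*} [Fintype ι] (U : Fin 6 → ℂ) (v : ι → Fin 6 → ℂ) (β : ι → ℂ) (δ : ℂ)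
    (H : ∀ x, 24 * tc (fun s => P x (dir U s)) 4 + ∑ j, β j * tc (fun s => P x (dir (v j) s)) 2 +
      δ * tc (fun s => P x (dir U s)) 0 = 0) : U = 0 := by
  have t0 : ty ![0, 0, 0, 0, 0, 0] = ![0, 0, 0, 1, 1, 1] := by decide +kernel
  have E0 := even_class ![0, 0, 0, 0, 0, 0] ![0, 0, 0, 1, 1, 1] ![1, 1, 1, 0, 0, 0] (by decide +kernel) (by decide +kernel)
    (by decide +kernel) U v β δ H
  rw [t0] at E0
  simp only [Fin.sum_univ_six, Matrix.cons_val] at E0
  have t1 : ty ![0, 0, 0, 0, 0, 1] = ![0, 0, 1, 0, 0, 2] := by decide +kernel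
  have E1 := even_class ![0, 0, 0, 0, 0, 1] ![0, 0, 1, 0, 0, 0] ![1, 1, 0, 1, 1, 0] (by decide +kernel) (by decide +kernel)
    (by decide +kernel) U v β δ H
  rw [t1] at E1
  simp only [Fin.sum_univ_six, Matrix.cons_val] at E1
  have t2 : ty ![0, 0, 0, 0, 1, 0] = ![0, 1, 0, 0, 2, 0] := by decide +kernel
  have E2 := even_class ![0, 0, 0, 0, 1, 0] ![0, 1, 0, 0, 0, 0] ![1, 0, 1, 1, 0, 1] (by decide +kernel) (by decide +kernel)
    (by decide +kernel) U v β δ H
  rw [t2] at E2
  simp only [Fin.sum_univ_six, Matrix.cons_val] at E2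
  have t3 : ty ![0, 0, 0, 1, 0, 0] = ![1, 0, 0, 2, 0, 0] := by decide +kernel
  have E3 := even_class ![0, 0, 0, 1, 0, 0] ![1, 0, 0, 0, 0, 0] ![0, 1, 1, 0, 1, 1] (by decide +kernel) (by decide +kernel)
    (by decide +kernel) U v β δ H
  rw [t3] at E3
  simp only [Fin.sum_univ_six, Matrix.cons_val] at E3
  have t4 : ty ![0, 0, 1, 0, 1, 0] = ![1, 0, 2, 0, 2, 1] := by decide +kernel
  have E4 := even_class ![0, 0, 1, 0, 1, 0] ![1, 0, 0, 0, 0, 1] ![0, 1, 0, 1, 0, 0] (by decide +kernel) (by decide +kernel)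
    (by decide +kernel) U v β δ H
  rw [t4] at E4
  simp only [Fin.sum_univ_six, Matrix.cons_val] at E4
  have t5 : ty ![0, 0, 1, 1, 0, 0] = ![0, 1, 2, 2, 0, 1] := by decide +kernel
  have E5 := even_class ![0, 0, 1, 1, 0, 0] ![0, 1, 0, 0, 0, 1] ![1, 0, 0, 0, 1, 0] (by decide +kernel) (by decide +kernel)
    (by decide +kernel) U v β δ H
  rw [t5] at E5
  simp only [Fin.sum_univ_six, Matrix.cons_val] at E5
  have t01 : ty ![1, 1, 0, 0, 0, 0] = ![3, 3, 0, 0, 0, 1] := by decide +kernel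
  have P01 := pair_class ![1, 1, 0, 0, 0, 0] ![1, 1, 0, 0, 0, 1] 0 1 (by decide) (by decide +kernel)
    (by decide +kernel) (by decide +kernel) (by decide +kernel) U v β δ H
  rw [t01] at P01
  simp only [Fin.sum_univ_six, Matrix.cons_val] at P01
  have t02 : ty ![1, 0, 1, 0, 0, 0] = ![3, 0, 3, 0, 1, 0] := by decide +kernel
  have P02 := pair_class ![1, 0, 1, 0, 0, 0] ![1, 0, 1, 0, 1, 0] 0 2 (by decide) (by decide +kernel)
    (by decide +kernel) (by decide +kernel) (by decide +kernel) U v β δ H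
  rw [t02] at P02
  simp only [Fin.sum_univ_six, Matrix.cons_val] at P02
  have t03 : ty ![1, 0, 0, 1, 0, 0] = ![3, 1, 1, 3, 0, 0] := by decide +kernel
  have P03 := pair_class ![1, 0, 0, 1, 0, 0] ![1, 1, 1, 1, 0, 0] 0 3 (by decide) (by decide +kernel)
    (by decide +kernel) (by decide +kernel) (by decide +kernel) U v β δ H
  rw [t03] at P03
  simp only [Fin.sum_univ_six, Matrix.cons_val] at P03
  have t04 : ty ![1, 0, 0, 1, 1, 0] = ![3, 0, 1, 2, 3, 1] := by decide +kernel
  have P04 := pair_class ![1, 0, 0, 1, 1, 0] ![1, 0, 1, 0, 1, 1] 0 4 (by decide) (by decide +kernel)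
    (by decide +kernel) (by decide +kernel) (by decide +kernel) U v β δ H
  rw [t04] at P04
  simp only [Fin.sum_univ_six, Matrix.cons_val] at P04
  have t05 : ty ![1, 0, 0, 1, 0, 1] = ![3, 1, 0, 2, 1, 3] := by decide +kernel
  have P05 := pair_class ![1, 0, 0, 1, 0, 1] ![1, 1, 0, 0, 1, 1] 0 5 (by decide) (by decide +kernel)
    (by decide +kernel) (by decide +kernel) (by decide +kernel) U v β δ H
  rw [t05] at P05
  simp only [Fin.sum_univ_six, Matrix.cons_val] at P05
  have t12 : ty ![0, 1, 1, 0, 0, 0] = ![0, 3, 3, 1, 0, 0] := by decide +kernel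
  have P12 := pair_class ![0, 1, 1, 0, 0, 0] ![0, 1, 1, 1, 0, 0] 1 2 (by decide) (by decide +kernel)
    (by decide +kernel) (by decide +kernel) (by decide +kernel) U v β δ H
  rw [t12] at P12
  simp only [Fin.sum_univ_six, Matrix.cons_val] at P12
  have t13 : ty ![0, 1, 0, 1, 1, 0] = ![0, 3, 1, 3, 2, 1] := by decide +kernel
  have P13 := pair_class ![0, 1, 0, 1, 1, 0] ![0, 1, 1, 1, 0, 1] 1 3 (by decide) (by decide +kernel)
    (by decide +kernel) (by decide +kernel) (by decide +kernel) U v β δ H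
  rw [t13] at P13
  simp only [Fin.sum_univ_six, Matrix.cons_val] at P13
  have t14 : ty ![0, 1, 0, 0, 1, 0] = ![1, 3, 1, 0, 3, 0] := by decide +kernel
  have P14 := pair_class ![0, 1, 0, 0, 1, 0] ![1, 1, 1, 0, 1, 0] 1 4 (by decide) (by decide +kernel)
    (by decide +kernel) (by decide +kernel) (by decide +kernel) U v β δ H
  rw [t14] at P14
  simp only [Fin.sum_univ_six, Matrix.cons_val] at P14
  have t15 : ty ![0, 1, 0, 0, 1, 1] = ![1, 3, 0, 1, 2, 3] := by decide +kernel
  have P15 := pair_class ![0, 1, 0, 0, 1, 1] ![1, 1, 0, 1, 0, 1] 1 5 (by decide) (by decide +kernel)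
    (by decide +kernel) (by decide +kernel) (by decide +kernel) U v β δ H
  rw [t15] at P15
  simp only [Fin.sum_univ_six, Matrix.cons_val] at P15
  have t23 : ty ![0, 0, 1, 1, 0, 1] = ![0, 1, 3, 3, 1, 2] := by decide +kernel
  have P23 := pair_class ![0, 0, 1, 1, 0, 1] ![0, 1, 1, 1, 1, 0] 2 3 (by decide) (by decide +kernel)
    (by decide +kernel) (by decide +kernel) (by decide +kernel) U v β δ H
  rw [t23] at P23
  simp only [Fin.sum_univ_six, Matrix.cons_val] at P23
  have t24 : ty ![0, 0, 1, 0, 1, 1] = ![1, 0, 3, 1, 3, 2] := by decide +kernel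
  have P24 := pair_class ![0, 0, 1, 0, 1, 1] ![1, 0, 1, 1, 1, 0] 2 4 (by decide) (by decide +kernel)
    (by decide +kernel) (by decide +kernel) (by decide +kernel) U v β δ H
  rw [t24] at P24
  simp only [Fin.sum_univ_six, Matrix.cons_val] at P24
  have t25 : ty ![0, 0, 1, 0, 0, 1] = ![1, 1, 3, 0, 0, 3] := by decide +kernel
  have P25 := pair_class ![0, 0, 1, 0, 0, 1] ![1, 1, 1, 0, 0, 1] 2 5 (by decide) (by decide +kernel)
    (by decide +kernel) (by decide +kernel) (by decide +kernel) U v β δ H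
  rw [t25] at P25
  simp only [Fin.sum_univ_six, Matrix.cons_val] at P25
  have t34 : ty ![0, 0, 0, 1, 1, 0] = ![1, 1, 0, 3, 3, 1] := by decide +kernel
  have P34 := pair_class ![0, 0, 0, 1, 1, 0] ![1, 1, 0, 1, 1, 1] 3 4 (by decide) (by decide +kernel)
    (by decide +kernel) (by decide +kernel) (by decide +kernel) U v β δ H
  rw [t34] at P34
  simp only [Fin.sum_univ_six, Matrix.cons_val] at P34
  have t35 : ty ![0, 0, 0, 1, 0, 1] = ![1, 0, 1, 3, 1, 3] := by decide +kernel
  have P35 := pair_class ![0, 0, 0, 1, 0, 1] ![1, 0, 1, 1, 1, 1] 3 5 (by decide) (by decide +kernel)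
    (by decide +kernel) (by decide +kernel) (by decide +kernel) U v β δ H
  rw [t35] at P35
  simp only [Fin.sum_univ_six, Matrix.cons_val] at P35
  have t45 : ty ![0, 0, 0, 0, 1, 1] = ![0, 1, 1, 1, 3, 3] := by decide +kernel
  have P45 := pair_class ![0, 0, 0, 0, 1, 1] ![0, 1, 1, 1, 1, 1] 4 5 (by decide) (by decide +kernel)
    (by decide +kernel) (by decide +kernel) (by decide +kernel) U v β δ H
  rw [t45] at P45
  simp only [Fin.sum_univ_six, Matrix.cons_val] at P45
  have c0 : chi 0 = 1 := by simp [chi]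
  have c1 : chi 1 = rho ^ 2 := by simp [chi]
  have c2 : chi 2 = rho := by simp [chi]
  have c3 : chi 3 = 0 := by simp [chi]
  simp only [c0, c1, c2] at E0 E1 E2 E3 E4 E5
  simp only [c0, c1, c2, c3] at P01 P02 P03 P04 P05 P12 P13 P14 P15 P23 P24 P25 P34 P35 P45
  obtain ⟨h0, h1, h2, h3, h4, h5⟩ := final (U 0 ^ 2) (U 1 ^ 2) (U 2 ^ 2) (U 3 ^ 2) (U 4 ^ 2)
    (U 5 ^ 2) (by linear_combination E0) (by linear_combination E1) (by linear_combination E2) (by linear_combination E3) (by linear_combination E4) (by linear_combination E5)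
    (by linear_combination P01)
    (by linear_combination P02)
    (by linear_combination P03)
    (by linear_combination P04)
    (by linear_combination P05)
    (by linear_combination P12)
    (by linear_combination P13)
    (by linear_combination P14)
    (by linear_combination P15)
    (by linear_combination P23)
    (by linear_combination P24)
    (by linear_combination P25)
    (by linear_combination P34)
    (by linear_combination P35)
    (by linear_combination P45)
  funext i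
  fin_cases i
  · exact pow_eq_zero_iff two_ne_zero |>.1 h0
  · exact pow_eq_zero_iff two_ne_zero |>.1 h1
  · exact pow_eq_zero_iff two_ne_zero |>.1 h2
  · exact pow_eq_zero_iff two_ne_zero |>.1 h3
  · exact pow_eq_zero_iff two_ne_zero |>.1 h4
  · exact pow_eq_zero_iff two_ne_zero |>.1 h5

end Pool.Agent.N139.G00
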