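import Pool.Agent.N139.G00.Fact
import Pool.Agent.N139.G00.Jet

/-!
# Jets of the basic functions
-/

namespace Pool.Agent.N139.G00

open Complex Matrix
open scoped Real
open Pool.Agent.N139.Th

/-- second coefficient -/
noncomputable def kap2 : ℂ := tc Nn 2

/-- first coefficient of the odd function -/
noncomputable def mm : ℂ := tc Mm 1

theorem mm_ne : mm ≠ 0 := by
  rw [mm, tc_one]
  exact Mm_deriv

theorem Nn_odd (n : ℕ) (hn : Odd n) : tc Nn n = 0 := by
  have h := tc_scale Nn_diff (-1) n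
  have h1 : (fun z => Nn (-1 * z)) = Nn := by
    funext z
    rw [neg_one_mul, Nn_neg]
  rw [h1, hn.neg_one_pow] at h
  have h2 : (2 : ℂ) * tc Nn n = 0 := by linear_combination h
  simpa using h2

theorem Mm_even (n : ℕ) (hn : Even n) : tc Mm n = 0 := by
  have h := tc_scale Mm_diff (-1) n
  have h1 : (fun z => Mm (-1 * z)) = fun z => -1 * Mm z := by
    funext z
    rw [neg_one_mul, Mm_neg]
    ring
  rw [h1, hn.neg_one_pow, tc_const_mul] at h
  have h2 : (2 : ℂ) * tc Mm n = 0 := by linear_combination -h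
  simpa using h2

theorem rho_ne_one : rho ≠ 1 := by
  intro h
  have := rho_im
  rw [h] at this
  simp at this

theorem Mm_three : tc Mm 3 = 0 := by
  have h := tc_scale Mm_diff rho 3
  have h1 : (fun z => Mm (rho * z)) = fun z => rho * Mm z := by
    funext z
    rw [Mm_rho]
  rw [h1, tc_const_mul, rho_cube] at h
  have h2 : (rho - 1) * tc Mm 3 = 0 := by linear_combination h
  rcases mul_eq_zero.1 h2 with h3 | h3
  · exact absurd (sub_eq_zero.1 h3) rho_ne_one
  · exact h3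

theorem J_Nn : J (tay Nn) 1 kap2 (tc Nn 4) := by
  refine ⟨?_, ?_, ?_, ?_, ?_⟩
  · rw [coeff_tay, tc_zero, Nn_zero]
  · rw [coeff_tay, Nn_odd 1 (by decide)]
  · rw [coeff_tay, kap2]
  · rw [coeff_tay, Nn_odd 3 (by decide)]
  · rw [coeff_tay]

theorem J_Nn_scale (c : ℂ) : J (tay fun z => Nn (c * z)) 1 (kap2 * c ^ 2) (tc Nn 4 * c ^ 4) := by
  obtain ⟨f0, f1, f2, f3, f4⟩ := J_Nn
  rw [coeff_tay] at f0 f1 f2 f3 f4
  refine ⟨?_, ?_, ?_, ?_, ?_⟩
  · rw [coeff_tay, tc_scale Nn_diff, f0]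
    ring
  · rw [coeff_tay, tc_scale Nn_diff, f1]
    ring
  · rw [coeff_tay, tc_scale Nn_diff, f2]
    ring
  · rw [coeff_tay, tc_scale Nn_diff, f3]
    ring
  · rw [coeff_tay, tc_scale Nn_diff]
    ring

theorem kap_rel : kap2 ≠ 0 ∧ tc Nn 4 = -(kap2 ^ 2 / 2) := by
  obtain ⟨C, hC, h⟩ := N_sq
  have d1 : Differentiable ℂ (fun z => Nn (rho * z)) := by
    have := Nn_diff
    fun_prop
  have h1 : tay (fun z => Nn z * Nn z) = tay (fun z => Nn (rho * z) * Nn (rho * z) +
      C * (Mm z * Mm z)) := by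
    congr 1
    funext z
    linear_combination h z
  have h2 : ∀ n, tc (fun z => Nn z * Nn z) n =
      tc (fun z => Nn (rho * z) * Nn (rho * z)) n + C * tc (fun z => Mm z * Mm z) n := by
    intro n
    rw [← coeff_tay, h1, coeff_tay, ← tc_const_mul, tc, tc, tc, ← add_div]
    congr 1
    exact iteratedDeriv_fun_add (d1.mul d1).contDiff.contDiffAt
      (((Mm_diff.mul Mm_diff).const_mul C).contDiff.contDiffAt)
  have h3 := J_mul J_Nn J_Nn
  have h4 := J_mul (J_Nn_scale rho) (J_Nn_scale rho)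
  rw [← tay_mul Nn_diff Nn_diff] at h3
  rw [← tay_mul d1 d1] at h4
  have m0 : PowerSeries.coeff 0 (tay Mm) = 0 := by rw [coeff_tay, Mm_even 0 (by decide)]
  have m1 : PowerSeries.coeff 1 (tay Mm) = mm := by rw [coeff_tay, mm]
  have m2 : PowerSeries.coeff 2 (tay Mm) = 0 := by rw [coeff_tay, Mm_even 2 (by decide)]
  have m3 : PowerSeries.coeff 3 (tay Mm) = 0 := by rw [coeff_tay, Mm_three]
  have m4 : PowerSeries.coeff 4 (tay Mm) = 0 := by rw [coeff_tay, Mm_even 4 (by decide)]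
  have s2 : tc (fun z => Mm z * Mm z) 2 = mm ^ 2 := by
    rw [← coeff_tay, tay_mul Mm_diff Mm_diff, coeff_mul_2, m0, m1, m2]
    ring
  have s4 : tc (fun z => Mm z * Mm z) 4 = 0 := by
    rw [← coeff_tay, tay_mul Mm_diff Mm_diff, coeff_mul_4, m0, m1, m2, m3, m4]
    ring
  have e2 := h2 2
  have e4 := h2 4
  rw [← coeff_tay, ← coeff_tay, h3.2.2.1, h4.2.2.1, s2] at e2
  rw [← coeff_tay, ← coeff_tay, h3.2.2.2.2, h4.2.2.2.2, s4] at e4
  refine ⟨?_, ?_⟩
  · intro h0
    rw [h0] at e2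
    have h5 : C * mm ^ 2 = 0 := by linear_combination -e2
    exact mul_ne_zero hC (pow_ne_zero 2 mm_ne) h5
  · have h6 : (1 - rho) * (2 * tc Nn 4 + kap2 ^ 2) = 0 := by
      linear_combination e4 + (rho * (2 * tc Nn 4 + kap2 ^ 2)) * rho_cube
    rcases mul_eq_zero.1 h6 with h7 | h7
    · exact absurd (sub_eq_zero.1 h7).symm rho_ne_one
    · linear_combination h7 / 2

/-- jets of the even normal forms -/
theorem J_nf (t : Fin 4) (ht : t ≠ 3) (u : ℂ) :
    J (tay fun s => nf t (u * s)) 1 (kap2 * (rho ^ (2 * t.val) * u ^ 2))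
      (-(kap2 ^ 2 / 2) * (rho ^ (2 * t.val) * u ^ 2) ^ 2) := by
  have h := J_Nn_scale (rho ^ t.val * u)
  have h1 : (fun z => Nn (rho ^ t.val * u * z)) = fun s => nf t (u * s) := by
    funext s
    rw [nf, if_neg ht, mul_assoc]
  rw [h1, kap_rel.2] at h
  convert h using 1 <;> ring

theorem tc_nf_odd (u : ℂ) (n : ℕ) : tc (fun s => nf 3 (u * s)) n = u ^ n * tc Mm n := by
  have h1 : (fun s => nf 3 (u * s)) = fun s => Mm (u * s) := by
    funext s
    simp [nf]
  rw [h1, tc_scale Mm_diff]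

end Pool.Agent.N139.G00
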