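import Pool.Agent.N139.G00.Fact

/-!
# The lattice has no short vectors
-/

namespace Pool.Agent.N139.G00

open Complex Matrix
open scoped Real
open Pool.Agent.N139.Th

theorem code_check : ∀ a : Fin 6 → Fin 2, a = 0 ∨
    4 ≤ (Finset.univ.filter fun i => (a i).val % 2 = 1 ∨
      (∑ j, ((a j).val : ℤ) * S6 j i) % 2 = 1).card := by
  decide +kernel

/-- the integral linear forms -/
def rr (p q : Fin 6 → ℤ) (i : Fin 6) : ℤ := ∑ j, p j * S6 j i + 2 * q i

theorem form_nonneg (x y : ℤ) : 0 ≤ x ^ 2 - x * y + y ^ 2 := by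
  nlinarith [sq_nonneg (x - y), sq_nonneg (x + y)]

theorem form_pos (x y : ℤ) (h : x ≠ 0 ∨ y ≠ 0) : 1 ≤ x ^ 2 - x * y + y ^ 2 := by
  have h1 : 0 ≤ x ^ 2 - x * y + y ^ 2 := form_nonneg x y
  by_contra h2
  have h3 : x ^ 2 - x * y + y ^ 2 = 0 := by omega
  have h4 : (2 * x - y) ^ 2 + 3 * y ^ 2 = 0 := by linear_combination 4 * h3
  have h5 : y = 0 := by
    have : y ^ 2 = 0 := by nlinarith [sq_nonneg (2 * x - y), sq_nonneg y]
    exact pow_eq_zero_iff two_ne_zero |>.1 this
  subst h5
  have h6 : x = 0 := by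
    have : x ^ 2 = 0 := by linear_combination h3
    exact pow_eq_zero_iff two_ne_zero |>.1 this
  rcases h with h | h
  · exact h h6
  · exact h rfl

theorem min_norm (p q : Fin 6 → ℤ)
    (h : ∑ i, (p i ^ 2 - p i * rr p q i + rr p q i ^ 2) < 4) :
    p = 0 ∧ ∀ i, rr p q i = 0 := by
  have hpar : ∀ i, rr p q i % 2 = (∑ j, (p j % 2) * S6 j i) % 2 := by
    intro i
    have h1 : rr p q i = (∑ j, (p j % 2) * S6 j i) + 2 * (∑ j, (p j / 2) * S6 j i + q i) := by
      rw [rr, mul_add, Finset.mul_sum, ← add_assoc, ← Finset.sum_add_distrib]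
      congr 1
      refine Finset.sum_congr rfl fun j _ => ?_
      have h2 := Int.emod_add_mul_ediv (p j) 2
      calc p j * S6 j i = (p j % 2 + 2 * (p j / 2)) * S6 j i := by rw [h2]
        _ = p j % 2 * S6 j i + 2 * (p j / 2 * S6 j i) := by ring
    rw [h1, Int.add_mul_emod_self_left]
  have ha : ∃ a : Fin 6 → Fin 2, ∀ i, ((a i).val : ℤ) = p i % 2 := by
    refine ⟨fun i => ⟨(p i % 2).toNat, by omega⟩, fun i => ?_⟩
    simp
    omega
  obtain ⟨a, ha⟩ := ha
  rcases code_check a with h0 | h4
  · -- everything even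
    have hp : ∀ i, p i % 2 = 0 := by
      intro i
      rw [← ha i, h0]
      rfl
    have hr : ∀ i, rr p q i % 2 = 0 := by
      intro i
      rw [hpar i]
      simp [hp]
    choose x hx using fun i => Int.dvd_of_emod_eq_zero (hp i)
    choose y hy using fun i => Int.dvd_of_emod_eq_zero (hr i)
    have h5 : ∑ i, (p i ^ 2 - p i * rr p q i + rr p q i ^ 2) =
        4 * ∑ i, (x i ^ 2 - x i * y i + y i ^ 2) := by
      rw [Finset.mul_sum]
      refine Finset.sum_congr rfl fun i _ => ?_
      rw [hy i, hx i]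
      ring
    rw [h5] at h
    have h6 : ∀ i, x i = 0 ∧ y i = 0 := by
      intro i
      by_contra hc
      have h7 : x i ≠ 0 ∨ y i ≠ 0 := by
        by_contra h8
        push_neg at h8
        exact hc h8
      have h8 := form_pos _ _ h7
      have h9 : x i ^ 2 - x i * y i + y i ^ 2 ≤ ∑ i, (x i ^ 2 - x i * y i + y i ^ 2) :=
        Finset.single_le_sum (f := fun i => x i ^ 2 - x i * y i + y i ^ 2)
          (fun i _ => form_nonneg _ _) (Finset.mem_univ i)
      omega
    refine ⟨?_, fun i => ?_⟩
    · funext i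
      rw [hx i, (h6 i).1]
      rfl
    · rw [hy i, (h6 i).2]
      rfl
  · exfalso
    have h5 : ((Finset.univ.filter fun i => (a i).val % 2 = 1 ∨
      (∑ j, ((a j).val : ℤ) * S6 j i) % 2 = 1).card : ℤ) ≤
        ∑ i, (p i ^ 2 - p i * rr p q i + rr p q i ^ 2) := by
      rw [Finset.card_eq_sum_ones]
      push_cast
      calc ∑ i ∈ Finset.univ.filter (fun i => (a i).val % 2 = 1 ∨
            (∑ j, ((a j).val : ℤ) * S6 j i) % 2 = 1), (1 : ℤ)
          ≤ ∑ i ∈ Finset.univ.filter (fun i => (a i).val % 2 = 1 ∨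
            (∑ j, ((a j).val : ℤ) * S6 j i) % 2 = 1),
            (p i ^ 2 - p i * rr p q i + rr p q i ^ 2) := by
            refine Finset.sum_le_sum fun i hi => ?_
            rw [Finset.mem_filter] at hi
            refine form_pos _ _ ?_
            rcases hi.2 with h6 | h6
            · left
              intro h7
              have h8 := ha i
              rw [h7] at h8
              simp at h8
              omega
            · right
              intro h7
              have h8 := hpar i
              simp only [ha] at h6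
              rw [h7] at h8
              omega
        _ ≤ ∑ i, (p i ^ 2 - p i * rr p q i + rr p q i ^ 2) :=
            Finset.sum_le_sum_of_subset_of_nonneg (Finset.filter_subset _ _)
              fun i _ _ => form_nonneg _ _
    omega

end Pool.Agent.N139.G00
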