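import Pool.Agent.N139.G00.One

/-!
# The two basic functions
-/

namespace Pool.Agent.N139.G00

open Complex
open scoped Real
open Pool.Agent.N139.Th

/-- the quadratic exponent -/
noncomputable def Q : ℂ := 4 * π * I * (rho ^ 2 - rho) / 3

theorem rho_cube : rho ^ 3 = 1 := by linear_combination (rho - 1) * rho_sq

theorem Q_rel : Q * (1 - rho) = 4 * π * I * rho ^ 2 := by
  unfold Q
  linear_combination (4 * π * I / 3) * (-rho) * rho_sq

theorem ph000_ne : ph rho 0 0 0 ≠ 0 := by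
  rw [ph_zero_arg, phi_00, pow_one]
  exact mul_ne_zero zeta_ne uu_ne

theorem ph010 : ph rho 0 1 0 = zeta * ph rho 0 0 0 := by
  rw [ph_zero_arg, ph_zero_arg, phi_00, phi_01]
  ring

theorem ph100 : ph rho 1 0 0 = zeta⁻¹ * ph rho 0 0 0 := by
  rw [ph_zero_arg, ph_zero_arg, phi_00, phi_10]
  field_simp [zeta_ne]

/-- the even function -/
noncomputable def Nn (z : ℂ) : ℂ := cexp (Q * z ^ 2) * ph rho 0 0 z / ph rho 0 0 0

/-- the odd function -/
noncomputable def Mm (z : ℂ) : ℂ := cexp (Q * z ^ 2) * ph rho 1 1 z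

theorem Nn_zero : Nn 0 = 1 := by
  unfold Nn
  simp [ph000_ne]

theorem Nn_diff : Differentiable ℂ Nn := by
  have h := ph_differentiable rho rho_im 0 0
  unfold Nn
  fun_prop

theorem Mm_diff : Differentiable ℂ Mm := by
  have h := ph_differentiable rho rho_im 1 1
  unfold Mm
  fun_prop

theorem Nn_neg (z : ℂ) : Nn (-z) = Nn z := by
  unfold Nn
  rw [ph_neg]
  simp

theorem Mm_neg (z : ℂ) : Mm (-z) = -Mm z := by
  unfold Mm
  rw [ph_neg]
  have h0 : cexp (-(↑π * I * ((1 : ℤ) : ℂ) * ((1 : ℤ) : ℂ))) = -1 := by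
    have : -(↑π * I * ((1 : ℤ) : ℂ) * ((1 : ℤ) : ℂ)) = -(π * I) := by
      push_cast
      ring
    rw [this, Complex.exp_neg, Complex.exp_pi_mul_I]
    norm_num
  rw [h0, neg_sq]
  ring

theorem ph00_N (z : ℂ) : ph rho 0 0 z = ph rho 0 0 0 * cexp (-(Q * z ^ 2)) * Nn z := by
  unfold Nn
  rw [Complex.exp_neg]
  field_simp [ph000_ne, Complex.exp_ne_zero]

theorem ph11_M (z : ℂ) : ph rho 1 1 z = cexp (-(Q * z ^ 2)) * Mm z := by
  unfold Mm
  rw [Complex.exp_neg]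
  field_simp [Complex.exp_ne_zero]

theorem ph01_N (z : ℂ) : ph rho 0 1 z = ph rho 0 1 0 * cexp (-(Q * z ^ 2)) * Nn (rho * z) := by
  have h := sym0 (rho * z)
  have h1 : rho * z * rho ^ 2 = z := by linear_combination z * rho_cube
  rw [h1] at h
  rw [ph010, Nn, h]
  have h2 : cexp (-(Q * z ^ 2)) * cexp (Q * (rho * z) ^ 2) *
      cexp (-(4 * π * I * (rho * z) ^ 2 * rho ^ 2)) = 1 := by
    rw [← Complex.exp_add, ← Complex.exp_add, ← Complex.exp_zero]
    congr 1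
    linear_combination (-z ^ 2 * (1 + rho)) * Q_rel + (-(4 * π * I * z ^ 2 * rho ^ 2)) * rho_sq
  have h4 : zeta * ph rho 0 0 0 * cexp (-(Q * z ^ 2)) *
      (cexp (Q * (rho * z) ^ 2) * (zeta⁻¹ * cexp (-(4 * ↑π * I * (rho * z) ^ 2 * rho ^ 2)) *
        ph rho 0 1 z) / ph rho 0 0 0) = (zeta * zeta⁻¹) * (ph rho 0 0 0 / ph rho 0 0 0) *
      (cexp (-(Q * z ^ 2)) * cexp (Q * (rho * z) ^ 2) *
      cexp (-(4 * π * I * (rho * z) ^ 2 * rho ^ 2))) * ph rho 0 1 z := by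
    ring
  rw [h4, h2, div_self ph000_ne, mul_inv_cancel₀ zeta_ne]
  ring

theorem ph10_N (z : ℂ) : ph rho 1 0 z = ph rho 1 0 0 * cexp (-(Q * z ^ 2)) * Nn (rho ^ 2 * z) := by
  rw [sym2, ph100, Nn, mul_comm z]
  have h2 : cexp (-(4 * π * I * z ^ 2 * rho ^ 2)) =
      cexp (-(Q * z ^ 2)) * cexp (Q * (rho ^ 2 * z) ^ 2) := by
    rw [← Complex.exp_add]
    congr 1
    linear_combination (z ^ 2) * Q_rel - (Q * z ^ 2 * rho) * rho_cube
  rw [h2]
  field_simp [ph000_ne]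

theorem Mm_rho (z : ℂ) : Mm (rho * z) = rho * Mm z := by
  have h := sym3 (rho * z)
  have h1 : rho * z * rho ^ 2 = z := by linear_combination z * rho_cube
  rw [h1] at h
  rw [Mm, Mm, h]
  have h2 : cexp (Q * z ^ 2) = cexp (Q * (rho * z) ^ 2) *
      cexp (-(4 * π * I * (rho * z) ^ 2 * rho ^ 2)) := by
    rw [← Complex.exp_add]
    congr 1
    linear_combination (z ^ 2 * (1 + rho)) * Q_rel + (4 * π * I * z ^ 2 * rho ^ 2) * rho_sq
  rw [h2]
  ring

/-- the special point -/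
noncomputable def w0 : ℂ := -(2 * rho + 1) / 3

theorem w0_sq : w0 ^ 2 = -1 / 3 := by
  unfold w0
  linear_combination (4 / 9) * rho_sq

theorem exp_rho : cexp (2 * π * I / 3) = rho := by
  rw [← zeta_eight, zeta_pow]
  congr 1
  push_cast
  ring

theorem Nn_w1 : Nn (rho * w0) = rho * Nn w0 := by
  have h1 : rho * w0 = (w0 + rho) + 1 := by
    unfold w0
    linear_combination (-2 / 3) * rho_sq
  rw [Nn]
  nth_rewrite 2 [h1]
  rw [ph_add_one, ph_add_s, Nn]
  have h2 : cexp (Q * (rho * w0) ^ 2) * cexp (-(4 * ↑π * I * rho) - 8 * ↑π * I * w0) =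
      rho * cexp (Q * w0 ^ 2) := by
    nth_rewrite 3 [← exp_rho]
    rw [← Complex.exp_add, ← Complex.exp_add]
    have h3 : Q * (rho * w0) ^ 2 + (-(4 * ↑π * I * rho) - 8 * ↑π * I * w0) =
      (2 * π * I / 3 + Q * w0 ^ 2) + 2 * π * I := by
      have h4 : (rho * w0) ^ 2 = rho ^ 2 * (-1 / 3) := by
        rw [mul_pow, w0_sq]
      rw [h4, w0_sq]
      unfold w0
      linear_combination (1 / 3 * (1 + rho)) * Q_rel + (4 * π * I / 3) * rho_cube +
        (4 * π * I / 3) * rho_sq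
    rw [h3, Complex.exp_add, Complex.exp_two_pi_mul_I, mul_one]
  rw [← mul_assoc, h2]
  ring

theorem Nn_w2 : Nn (rho ^ 2 * w0) = rho ^ 2 * Nn w0 := by
  have h1 : rho ^ 2 * w0 = w0 + rho := by
    unfold w0
    linear_combination (-2 / 3) * rho_cube - (1 / 3) * rho_sq + rho_sq * 0
  rw [Nn]
  nth_rewrite 2 [h1]
  rw [ph_add_s, Nn]
  have h2 : cexp (Q * (rho ^ 2 * w0) ^ 2) * cexp (-(4 * ↑π * I * rho) - 8 * ↑π * I * w0) =
      rho ^ 2 * cexp (Q * w0 ^ 2) := by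
    nth_rewrite 3 [← exp_rho]
    rw [← Complex.exp_nat_mul, ← Complex.exp_add, ← Complex.exp_add]
    congr 1
    have h4 : (rho ^ 2 * w0) ^ 2 = rho ^ 4 * (-1 / 3) := by
      rw [mul_pow, w0_sq]
      ring
    rw [h4, w0_sq]
    unfold w0
    push_cast
    linear_combination (1 / 3) * Q_rel - (1 / 3 * Q * rho) * rho_cube + (4 * π * I / 3) * rho_sq
  rw [← mul_assoc, h2]
  ring

end Pool.Agent.N139.G00
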