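import Pool.Agent.N139.Th.Vals

/-!
# One-dimensional theta functions at the cube root of unity: symmetries
-/

namespace Pool.Agent.N139.G00

open Complex
open scoped Real
open Pool.Agent.N139.Th

/-- one-dimensional theta functions -/
noncomputable def ph (s : ℂ) (a b : ℤ) (z : ℂ) : ℂ :=
  ∑' m : ℤ, cexp (π * I * s * (m + (a : ℂ) / 2) ^ 2 + π * I * m * b +
    4 * π * I * (m + (a : ℂ) / 2) * z)

theorem ph_eq (s : ℂ) (a b : ℤ) (z : ℂ) :
    ph s a b z = cexp (π * I * s * a ^ 2 / 4 + 2 * π * I * a * z) *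
      jacobiTheta₂ ((s * a + b) / 2 + 2 * z) s := by
  unfold ph jacobiTheta₂
  rw [← tsum_mul_left]
  refine tsum_congr fun n => ?_
  unfold jacobiTheta₂_term
  rw [← Complex.exp_add]
  congr 1
  ring

theorem ph_zero_arg (s : ℂ) (a b : ℤ) : ph s a b 0 = phi s a b := by
  unfold ph phi
  refine tsum_congr fun m => ?_
  congr 1
  ring

theorem ph_summable (s : ℂ) (hs : 0 < s.im) (a b : ℤ) (z : ℂ) :
    Summable fun m : ℤ => ‖cexp (π * I * s * (m + (a : ℂ) / 2) ^ 2 + π * I * m * b +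
      4 * π * I * (m + (a : ℂ) / 2) * z)‖ := by
  have h := (((summable_jacobiTheta₂_term_iff ((s * a + b) / 2 + 2 * z) s).2 hs).mul_left
    (cexp (π * I * s * a ^ 2 / 4 + 2 * π * I * a * z))).norm
  refine h.congr fun n => ?_
  unfold jacobiTheta₂_term
  rw [← Complex.exp_add]
  congr 2
  ring

theorem ph_differentiable (s : ℂ) (hs : 0 < s.im) (a b : ℤ) : Differentiable ℂ (ph s a b) := by
  have h : ph s a b = fun z => cexp (π * I * s * a ^ 2 / 4 + 2 * π * I * a * z) *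
      jacobiTheta₂ ((s * a + b) / 2 + 2 * z) s := by
    funext z
    exact ph_eq s a b z
  rw [h]
  intro z
  have h1 : DifferentiableAt ℂ (fun z : ℂ => (s * a + b) / 2 + 2 * z) z := by fun_prop
  have h2 : DifferentiableAt ℂ (fun w : ℂ => jacobiTheta₂ w s) ((s * a + b) / 2 + 2 * z) :=
    differentiableAt_jacobiTheta₂_fst _ hs
  have h3 : DifferentiableAt ℂ (fun z : ℂ => jacobiTheta₂ ((s * a + b) / 2 + 2 * z) s) z :=
    DifferentiableAt.comp (g := fun w : ℂ => jacobiTheta₂ w s) z h2 h1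
  have h4 : DifferentiableAt ℂ (fun z : ℂ => cexp (π * I * s * a ^ 2 / 4 + 2 * π * I * a * z)) z := by
    fun_prop
  exact h4.mul h3

theorem ph_add (s : ℂ) (a b k : ℤ) (z : ℂ) : ph s a (b + 2 * k) z = ph s a b z := by
  rw [ph_eq, ph_eq]
  congr 1
  have : (s * a + ((b + 2 * k : ℤ) : ℂ)) / 2 + 2 * z = ((s * a + b) / 2 + 2 * z) + k := by
    push_cast
    ring
  rw [this, jt_add_int]

theorem ph_mod (s : ℂ) (a b : ℤ) (z : ℂ) : ph s a b z = ph s a (b % 2) z := by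
  obtain ⟨k, hk⟩ : ∃ k, b = b % 2 + 2 * k := ⟨b / 2, (Int.emod_add_mul_ediv b 2).symm⟩
  conv_lhs => rw [hk]
  rw [ph_add]

/-- shift of the modulus by one -/
theorem ph1_0 (s : ℂ) (b : ℤ) (z : ℂ) : ph (s + 1) 0 b z = ph s 0 (b + 1) z := by
  rw [ph_eq, ph_eq, jt_add_one]
  congr 1
  · congr 1
    push_cast
    ring
  · congr 1
    push_cast
    ring

theorem ph1_1 (s : ℂ) (b : ℤ) (z : ℂ) : ph (s + 1) 1 b z = zeta ^ 3 * ph s 1 b z := by
  rw [ph_eq, ph_eq, jt_add_one, zeta_pow, ← mul_assoc, ← Complex.exp_add]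
  congr 1
  · congr 1
    push_cast
    ring
  · have : ((s + 1) * ((1 : ℤ) : ℂ) + (b : ℂ)) / 2 + 2 * z + 1 / 2 =
        ((s * ((1 : ℤ) : ℂ) + (b : ℂ)) / 2 + 2 * z) + ((1 : ℤ) : ℂ) := by
      push_cast
      ring
    rw [this, jt_add_int]

/-- parity -/
theorem ph_neg (s : ℂ) (a b : ℤ) (z : ℂ) : ph s a b (-z) = cexp (-(π * I * a * b)) * ph s a b z := by
  unfold ph
  rw [← (Equiv.subLeft (-a)).tsum_eq, ← tsum_mul_left]
  refine tsum_congr fun m => ?_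
  rw [← Complex.exp_add, Equiv.subLeft_apply]
  have h : ↑π * I * s * (((-a - m : ℤ) : ℂ) + (a : ℂ) / 2) ^ 2 +
      ↑π * I * ((-a - m : ℤ) : ℂ) * b + 4 * ↑π * I * (((-a - m : ℤ) : ℂ) + (a : ℂ) / 2) * -z =
      (-(↑π * I * ↑a * ↑b) + (↑π * I * s * (↑m + ↑a / 2) ^ 2 + ↑π * I * ↑m * ↑b +
        4 * ↑π * I * (↑m + ↑a / 2) * z)) + ((-(m * b) : ℤ) : ℂ) * (2 * π * I) := by
    push_cast
    ring
  rw [h, Complex.exp_add _ (((-(m * b) : ℤ) : ℂ) * (2 * π * I)),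
    Complex.exp_int_mul_two_pi_mul_I, mul_one]

/-- shift by one -/
theorem ph_add_one (s : ℂ) (a b : ℤ) (z : ℂ) : ph s a b (z + 1) = ph s a b z := by
  unfold ph
  refine tsum_congr fun m => ?_
  have h : ↑π * I * s * ((m : ℂ) + (a : ℂ) / 2) ^ 2 +
      ↑π * I * (m : ℂ) * b + 4 * ↑π * I * ((m : ℂ) + (a : ℂ) / 2) * (z + 1) =
      (↑π * I * s * (↑m + ↑a / 2) ^ 2 + ↑π * I * ↑m * ↑b +
        4 * ↑π * I * (↑m + ↑a / 2) * z) + ((2 * m + a : ℤ) : ℂ) * (2 * π * I) := by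
    push_cast
    ring
  rw [h, Complex.exp_add _ (((2 * m + a : ℤ) : ℂ) * (2 * π * I)),
    Complex.exp_int_mul_two_pi_mul_I, mul_one]

/-- shift by the modulus -/
theorem ph_add_s (s : ℂ) (a b : ℤ) (z : ℂ) :
    ph s a b (z + s) = cexp (-(4 * π * I * s) - 8 * π * I * z) * ph s a b z := by
  unfold ph
  rw [← (Equiv.addRight (2 : ℤ)).tsum_eq (fun m : ℤ => cexp (π * I * s * (m + (a : ℂ) / 2) ^ 2 +
    π * I * m * b + 4 * π * I * (m + (a : ℂ) / 2) * z)), ← tsum_mul_left]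
  refine tsum_congr fun m => ?_
  rw [← Complex.exp_add, Equiv.coe_addRight]
  have h : ↑π * I * s * ((m : ℂ) + (a : ℂ) / 2) ^ 2 +
      ↑π * I * (m : ℂ) * b + 4 * ↑π * I * ((m : ℂ) + (a : ℂ) / 2) * (z + s) =
      (-(4 * ↑π * I * s) - 8 * ↑π * I * z + (↑π * I * s * (((m + 2 : ℤ) : ℂ) + ↑a / 2) ^ 2 +
        ↑π * I * ((m + 2 : ℤ) : ℂ) * ↑b +
        4 * ↑π * I * (((m + 2 : ℤ) : ℂ) + ↑a / 2) * z)) + ((-b : ℤ) : ℂ) * (2 * π * I) := by
    push_cast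
    ring
  rw [h, Complex.exp_add _ (((-b : ℤ) : ℂ) * (2 * π * I)),
    Complex.exp_int_mul_two_pi_mul_I, mul_one]

theorem jt_fe (w : ℂ) : jacobiTheta₂ w rho =
    zeta⁻¹ * cexp (-(π * I * w ^ 2 / rho)) * jacobiTheta₂ (w / rho + 1 / 2) rho := by
  have h := jacobiTheta₂_functional_equation w rho
  rw [sqrt_rho, neg_inv_rho, jt_add_one] at h
  rw [h, one_div]
  congr 3
  ring

theorem rho_inv : rho⁻¹ = rho ^ 2 := by
  have h := rho_sq
  field_simp [rho_ne]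
  linear_combination (1 - rho) * h

theorem div_rho (w : ℂ) : w / rho = w * rho ^ 2 := by
  rw [div_eq_mul_inv, rho_inv]

theorem sym0 (z : ℂ) : ph rho 0 0 z =
    zeta⁻¹ * cexp (-(4 * π * I * z ^ 2 * rho ^ 2)) * ph rho 0 1 (z * rho ^ 2) := by
  rw [ph_eq, ph_eq, jt_fe, div_rho, div_rho]
  have e1 : cexp (↑π * I * rho * ((0 : ℤ) : ℂ) ^ 2 / 4 + 2 * ↑π * I * ((0 : ℤ) : ℂ) * z) = 1 := by
    simp
  have e2 : cexp (↑π * I * rho * ((0 : ℤ) : ℂ) ^ 2 / 4 +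
      2 * ↑π * I * ((0 : ℤ) : ℂ) * (z * rho ^ 2)) = 1 := by
    simp
  rw [e1, e2]
  push_cast
  ring_nf

theorem zeta_six : zeta ^ 6 = I := by
  rw [zeta_pow]
  have : ((6 : ℕ) : ℂ) * (π * I / 12) = π / 2 * I := by
    push_cast
    ring
  rw [this, Complex.exp_pi_div_two_mul_I]

theorem zeta_eight : zeta ^ 8 = rho := by
  have h1 : zeta ^ 2 = -I * rho := by
    rw [neg_I_mul_rho, zeta_pow]
    congr 1
    push_cast
    ring
  have h2 : zeta ^ 8 = zeta ^ 6 * zeta ^ 2 := by ring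
  rw [h2, zeta_six, h1]
  linear_combination (-rho) * Complex.I_sq

theorem sym1 (z : ℂ) : ph rho 0 1 z =
    zeta ^ 2 * cexp (-(4 * π * I * z ^ 2 * rho ^ 2)) * ph rho 1 0 (z * rho ^ 2) := by
  have h1 : ph rho 1 0 (z * rho ^ 2) = cexp (π * I * rho / 4 - 2 * π * I * (z * rho ^ 2)) *
      jacobiTheta₂ (2 * (z * rho ^ 2) - rho / 2) rho := by
    have h := ph_neg rho 1 0 (z * rho ^ 2)
    have h0 : cexp (-(↑π * I * ((1 : ℤ) : ℂ) * ((0 : ℤ) : ℂ))) = 1 := by simp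
    rw [h0, one_mul] at h
    rw [← h, ph_eq, ← jacobiTheta₂_neg_left]
    congr 1
    · congr 1
      push_cast
      ring
    · congr 1
      push_cast
      ring
  rw [h1, ph_eq, jt_fe, div_rho, div_rho]
  have e1 : cexp (↑π * I * rho * ((0 : ℤ) : ℂ) ^ 2 / 4 + 2 * ↑π * I * ((0 : ℤ) : ℂ) * z) = 1 := by
    simp
  have e3 : ((rho * ((0 : ℤ) : ℂ) + ((1 : ℤ) : ℂ)) / 2 + 2 * z) * rho ^ 2 + 1 / 2 =
      2 * (z * rho ^ 2) - rho / 2 := by
    push_cast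
    linear_combination (1 / 2) * rho_sq
  have e4 : zeta ^ 2 = zeta⁻¹ * cexp (π * I / 4) := by
    have h5 : cexp (π * I / 4) = zeta ^ 3 := by
      rw [zeta_pow]
      congr 1
      push_cast
      ring
    rw [h5]
    field_simp [zeta_ne]
  have e5 : cexp (-(↑π * I * ((rho * ((0 : ℤ) : ℂ) + ((1 : ℤ) : ℂ)) / 2 + 2 * z) ^ 2 * rho ^ 2)) =
      cexp (π * I / 4) * cexp (-(4 * π * I * z ^ 2 * rho ^ 2)) *
        cexp (π * I * rho / 4 - 2 * π * I * (z * rho ^ 2)) := by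
    rw [← Complex.exp_add, ← Complex.exp_add]
    congr 1
    push_cast
    linear_combination (-(π * I / 4)) * rho_sq
  rw [e1, e3, e4, e5]
  ring

theorem sym2 (z : ℂ) : ph rho 1 0 z =
    zeta⁻¹ * cexp (-(4 * π * I * z ^ 2 * rho ^ 2)) * ph rho 0 0 (z * rho ^ 2) := by
  rw [ph_eq, ph_eq, jt_fe, div_rho, div_rho]
  have e1 : cexp (↑π * I * rho * ((0 : ℤ) : ℂ) ^ 2 / 4 +
      2 * ↑π * I * ((0 : ℤ) : ℂ) * (z * rho ^ 2)) = 1 := by
    simp
  have hr : rho ^ 3 = 1 := by linear_combination (rho - 1) * rho_sq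
  have e3 : ((rho * ((1 : ℤ) : ℂ) + ((0 : ℤ) : ℂ)) / 2 + 2 * z) * rho ^ 2 + 1 / 2 =
      ((rho * ((0 : ℤ) : ℂ) + ((0 : ℤ) : ℂ)) / 2 + 2 * (z * rho ^ 2)) + ((1 : ℤ) : ℂ) := by
    push_cast
    linear_combination (1 / 2) * hr
  rw [e1, e3, one_mul, jt_add_int, ← mul_assoc, ← mul_assoc]
  congr 1
  rw [mul_comm (cexp _) (zeta⁻¹), mul_assoc, ← Complex.exp_add]
  congr 2
  push_cast
  linear_combination (-(π * I * (rho / 4 + 2 * z))) * hr

theorem sym3 (z : ℂ) : ph rho 1 1 z =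
    rho * cexp (-(4 * π * I * z ^ 2 * rho ^ 2)) * ph rho 1 1 (z * rho ^ 2) := by
  have h1 : ph rho 1 1 (z * rho ^ 2) = -(cexp (π * I * rho / 4 - 2 * π * I * (z * rho ^ 2)) *
      jacobiTheta₂ (2 * (z * rho ^ 2) - rho / 2 + 1 / 2) rho) := by
    have h := ph_neg rho 1 1 (z * rho ^ 2)
    have h0 : cexp (-(↑π * I * ((1 : ℤ) : ℂ) * ((1 : ℤ) : ℂ))) = -1 := by
      have : -(↑π * I * ((1 : ℤ) : ℂ) * ((1 : ℤ) : ℂ)) = -(π * I) := by
        push_cast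
        ring
      rw [this, Complex.exp_neg, Complex.exp_pi_mul_I]
      norm_num
    rw [h0] at h
    have h2 : ph rho 1 1 (z * rho ^ 2) = -ph rho 1 1 (-(z * rho ^ 2)) := by
      rw [h]
      ring
    rw [h2, ph_eq]
    congr 1
    congr 1
    · congr 1
      push_cast
      ring
    · rw [← jacobiTheta₂_neg_left]
      have h5 : -((rho * ((1 : ℤ) : ℂ) + ((1 : ℤ) : ℂ)) / 2 + 2 * -(z * rho ^ 2)) =
          (2 * (z * rho ^ 2) - rho / 2 + 1 / 2) + ((-1 : ℤ) : ℂ) := by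
        push_cast
        ring
      rw [h5, jt_add_int]
  rw [h1, ph_eq, jt_fe, div_rho, div_rho]
  have hr : rho ^ 3 = 1 := by linear_combination (rho - 1) * rho_sq
  have e3 : ((rho * ((1 : ℤ) : ℂ) + ((1 : ℤ) : ℂ)) / 2 + 2 * z) * rho ^ 2 + 1 / 2 =
      2 * (z * rho ^ 2) - rho / 2 + 1 / 2 := by
    push_cast
    linear_combination (1 / 2) * hr + (1 / 2) * rho_sq
  rw [e3]
  have e4 : rho = -(zeta⁻¹ * cexp (-(π * I / 4))) := by
    have h5 : cexp (-(π * I / 4)) = zeta⁻¹ ^ 3 := by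
      rw [inv_pow, zeta_pow, ← Complex.exp_neg]
      congr 1
      push_cast
      ring
    rw [h5]
    have h6 : zeta ^ 12 = -1 := by
      have : zeta ^ 12 = (zeta ^ 6) ^ 2 := by ring
      rw [this, zeta_six, Complex.I_sq]
    rw [← zeta_eight]
    field_simp [zeta_ne]
    linear_combination h6
  have e5 : cexp (↑π * I * rho * ((1 : ℤ) : ℂ) ^ 2 / 4 + 2 * ↑π * I * ((1 : ℤ) : ℂ) * z) *
      cexp (-(↑π * I * ((rho * ((1 : ℤ) : ℂ) + ((1 : ℤ) : ℂ)) / 2 + 2 * z) ^ 2 * rho ^ 2)) =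
      cexp (-(π * I / 4)) * cexp (-(4 * π * I * z ^ 2 * rho ^ 2)) *
        cexp (π * I * rho / 4 - 2 * π * I * (z * rho ^ 2)) := by
    rw [← Complex.exp_add, ← Complex.exp_add, ← Complex.exp_add]
    congr 1
    push_cast
    linear_combination (-(π * I / 4) * (rho ^ 2 + rho - 1) - 2 * π * I * z * (rho - 1)) * rho_sq
  have e6 : rho * cexp (-(4 * ↑π * I * z ^ 2 * rho ^ 2)) *
      -(cexp (↑π * I * rho / 4 - 2 * ↑π * I * (z * rho ^ 2)) *
        jacobiTheta₂ (2 * (z * rho ^ 2) - rho / 2 + 1 / 2) rho) =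
      -rho * (cexp (-(4 * ↑π * I * z ^ 2 * rho ^ 2)) *
      (cexp (↑π * I * rho / 4 - 2 * ↑π * I * (z * rho ^ 2)) *
        jacobiTheta₂ (2 * (z * rho ^ 2) - rho / 2 + 1 / 2) rho)) := by ring
  have e7 : -rho = zeta⁻¹ * cexp (-(π * I / 4)) := by
    linear_combination -e4
  rw [e6, e7]
  linear_combination (zeta⁻¹ * jacobiTheta₂ (2 * (z * rho ^ 2) - rho / 2 + 1 / 2) rho) * e5

end Pool.Agent.N139.G00
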