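import Pool.Agent.N139.G00.NM

/-!
# The squares of the theta functions
-/

namespace Pool.Agent.N139.G00

open Complex
open scoped Real
open Pool.Agent.N139.Th

/-- auxiliary theta functions of half modulus -/
noncomputable def Y (s : ℂ) (b : ℤ) (z : ℂ) : ℂ :=
  ∑' k : ℤ, cexp (π * I * (s / 2) * k ^ 2 + π * I * k * b + 4 * π * I * k * z)

theorem Y_summable (s : ℂ) (hs : 0 < s.im) (b : ℤ) (z : ℂ) :
    Summable fun k : ℤ => ‖cexp (π * I * (s / 2) * k ^ 2 + π * I * k * b + 4 * π * I * k * z)‖ := by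
  have h := ph_summable (s / 2) (by simpa using hs) 0 b z
  refine h.congr fun n => ?_
  congr 2
  push_cast
  ring

theorem sq_eq (s : ℂ) (hs : 0 < s.im) (a b : ℤ) (z : ℂ) :
    2 * cexp (π * I * a * b) * ph s a b z ^ 2 =
      Y s b z * Y s 0 0 + cexp (-(π * I * a)) * (Y s (b + 1) z * Y s 1 0) := by
  have h1 := tsum_mul_tsum_of_summable_norm (ph_summable s hs a b z) (ph_summable s hs a b z)
  have h2 := tsum_mul_tsum_of_summable_norm (Y_summable s hs b z) (Y_summable s hs 0 0)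
  have h3 := tsum_mul_tsum_of_summable_norm (Y_summable s hs (b + 1) z) (Y_summable s hs 1 0)
  have s2 := summable_mul_of_summable_norm (Y_summable s hs b z) (Y_summable s hs 0 0)
  have s3 := summable_mul_of_summable_norm (Y_summable s hs (b + 1) z) (Y_summable s hs 1 0)
  have e1 : ph s a b z ^ 2 = ph s a b z * ph s a b z := by ring
  rw [e1]
  unfold ph Y
  rw [h1, h2, h3, ← tsum_mul_left, ← tsum_mul_left, ← Summable.tsum_add s2 (s3.mul_left _)]
  have hinj : Function.Injective (fun x : ℤ × ℤ => (x.1 + x.2 + a, x.1 - x.2)) := by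
    rintro ⟨m, n⟩ ⟨m', n'⟩ h
    simp only [Prod.mk.injEq] at h
    obtain ⟨h4, h5⟩ := h
    ext <;> dsimp only <;> omega
  have hE : ∀ n : ℤ, cexp (2 * π * I * n) = 1 := fun n => by
    rw [mul_comm, Complex.exp_int_mul_two_pi_mul_I]
  have key : ∀ k l : ℤ, cexp (↑π * I * (s / 2) * ↑k ^ 2 + ↑π * I * ↑k * ↑b + 4 * ↑π * I * ↑k * z) *
      cexp (↑π * I * (s / 2) * ↑l ^ 2 + ↑π * I * ↑l * ((0 : ℤ) : ℂ) + 4 * ↑π * I * ↑l * 0) +
      cexp (-(↑π * I * ↑a)) *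
      (cexp (↑π * I * (s / 2) * ↑k ^ 2 + ↑π * I * ↑k * ((b + 1 : ℤ) : ℂ) + 4 * ↑π * I * ↑k * z) *
      cexp (↑π * I * (s / 2) * ↑l ^ 2 + ↑π * I * ↑l * ((1 : ℤ) : ℂ) + 4 * ↑π * I * ↑l * 0)) =
      cexp (π * I * (s / 2) * (k ^ 2 + l ^ 2) + π * I * k * b + 4 * π * I * k * z) *
        (1 + cexp (π * I * ((k + l - a : ℤ) : ℂ))) := by
    intro k l
    rw [mul_add, mul_one, ← Complex.exp_add, ← Complex.exp_add, ← Complex.exp_add,
      ← Complex.exp_add]
    congr 1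
    · congr 1
      push_cast
      ring
    · congr 1
      push_cast
      ring
  rw [eq_comm, ← hinj.tsum_eq]
  · refine tsum_congr fun x => ?_
    dsimp only
    rw [key]
    have h6 : cexp (π * I * ((x.1 + x.2 + a + (x.1 - x.2) - a : ℤ) : ℂ)) = 1 := by
      rw [← hE x.1]
      congr 1
      push_cast
      ring
    rw [h6, ← Complex.exp_add, one_add_one_eq_two, mul_comm _ (2 : ℂ), mul_assoc (2 : ℂ) (cexp _),
      ← Complex.exp_add]
    congr 2
    push_cast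
    ring
  · rintro ⟨k, l⟩ hkl
    rw [Function.mem_support] at hkl
    dsimp only at hkl
    rw [key] at hkl
    rcases Int.even_or_odd (k + l - a) with h | h
    · obtain ⟨m, hm⟩ := h
      refine ⟨(m, k - a - m), ?_⟩
      ext <;> dsimp only <;> omega
    · exfalso
      apply hkl
      obtain ⟨m, hm⟩ := h
      have h6 : cexp (π * I * ((k + l - a : ℤ) : ℂ)) = -1 := by
        rw [hm]
        have h7 : π * I * ((2 * m + 1 : ℤ) : ℂ) = 2 * π * I * m + π * I := by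
          push_cast
          ring
        rw [h7, Complex.exp_add, hE, Complex.exp_pi_mul_I]
        norm_num
      rw [h6]
      ring

theorem Y_two (s : ℂ) (z : ℂ) : Y s 2 z = Y s 0 z := by
  unfold Y
  refine tsum_congr fun k => ?_
  have h : ↑π * I * (s / 2) * (k : ℂ) ^ 2 + ↑π * I * k * ((2 : ℤ) : ℂ) + 4 * ↑π * I * k * z =
      (↑π * I * (s / 2) * (k : ℂ) ^ 2 + ↑π * I * k * ((0 : ℤ) : ℂ) + 4 * ↑π * I * k * z) +
        (k : ℤ) * (2 * π * I) := by
    push_cast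
    ring
  rw [h, Complex.exp_add _ ((k : ℤ) * (2 * π * I)), Complex.exp_int_mul_two_pi_mul_I, mul_one]

/-- the classical relation between the squares -/
theorem jacobi_sq (s : ℂ) (hs : 0 < s.im) (z : ℂ) :
    ph s 0 0 z ^ 2 * ph s 0 1 0 ^ 2 - ph s 0 1 z ^ 2 * ph s 0 0 0 ^ 2 =
      ph s 1 0 0 ^ 2 * ph s 1 1 z ^ 2 := by
  have a1 := sq_eq s hs 0 0 z
  have a2 := sq_eq s hs 0 1 z
  have a3 := sq_eq s hs 0 0 0
  have a4 := sq_eq s hs 0 1 0
  have a5 := sq_eq s hs 1 0 0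
  have a6 := sq_eq s hs 1 1 z
  have e1 : cexp (↑π * I * ((0 : ℤ) : ℂ) * ((0 : ℤ) : ℂ)) = 1 := by simp
  have e2 : cexp (↑π * I * ((0 : ℤ) : ℂ) * ((1 : ℤ) : ℂ)) = 1 := by simp
  have e3 : cexp (↑π * I * ((1 : ℤ) : ℂ) * ((0 : ℤ) : ℂ)) = 1 := by simp
  have e4 : cexp (↑π * I * ((1 : ℤ) : ℂ) * ((1 : ℤ) : ℂ)) = -1 := by
    have : ↑π * I * ((1 : ℤ) : ℂ) * ((1 : ℤ) : ℂ) = π * I := by
      push_cast
      ring
    rw [this, Complex.exp_pi_mul_I]
  have e5 : cexp (-(↑π * I * ((0 : ℤ) : ℂ))) = 1 := by simp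
  have e6 : cexp (-(↑π * I * ((1 : ℤ) : ℂ))) = -1 := by
    have : -(↑π * I * ((1 : ℤ) : ℂ)) = -(π * I) := by
      push_cast
      ring
    rw [this, Complex.exp_neg, Complex.exp_pi_mul_I]
    norm_num
  have e7 : ∀ w, Y s (1 + 1) w = Y s 0 w := fun w => by
    have : (1 + 1 : ℤ) = 2 := by norm_num
    rw [this, Y_two]
  rw [e1, e5, zero_add] at a1 a3
  rw [e2, e5, e7] at a2 a4
  rw [e3, e6, zero_add] at a5
  rw [e4, e6, e7] at a6
  have b1 : ph s 0 0 z ^ 2 = (Y s 0 z * Y s 0 0 + Y s 1 z * Y s 1 0) / 2 := by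
    linear_combination a1 / 2
  have b2 : ph s 0 1 z ^ 2 = (Y s 1 z * Y s 0 0 + Y s 0 z * Y s 1 0) / 2 := by
    linear_combination a2 / 2
  have b3 : ph s 0 0 0 ^ 2 = (Y s 0 0 * Y s 0 0 + Y s 1 0 * Y s 1 0) / 2 := by
    linear_combination a3 / 2
  have b4 : ph s 0 1 0 ^ 2 = (Y s 1 0 * Y s 0 0 + Y s 0 0 * Y s 1 0) / 2 := by
    linear_combination a4 / 2
  have b5 : ph s 1 0 0 ^ 2 = (Y s 0 0 * Y s 0 0 - Y s 1 0 * Y s 1 0) / 2 := by
    linear_combination a5 / 2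
  have b6 : ph s 1 1 z ^ 2 = (Y s 0 z * Y s 1 0 - Y s 1 z * Y s 0 0) / 2 := by
    linear_combination -a6 / 2
  rw [b1, b2, b3, b4, b5, b6]
  ring

/-- the relation for the normalised functions -/
theorem N_sq : ∃ C : ℂ, C ≠ 0 ∧ ∀ z, Nn z ^ 2 - Nn (rho * z) ^ 2 = C * Mm z ^ 2 := by
  refine ⟨ph rho 1 0 0 ^ 2 / (ph rho 0 0 0 ^ 2 * ph rho 0 1 0 ^ 2), ?_, fun z => ?_⟩
  · have h1 := ph000_ne
    have h2 := ph010
    have h3 := ph100
    rw [h2, h3]
    have := zeta_ne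
    positivity
  · have h := jacobi_sq rho rho_im z
    have h1 := ph00_N z
    have h2 := ph01_N z
    have h3 := ph11_M z
    have h4 := ph000_ne
    have h5 : ph rho 0 1 0 ≠ 0 := by
      rw [ph010]
      exact mul_ne_zero zeta_ne h4
    rw [h1, h2, h3] at h
    have h6 := Complex.exp_ne_zero (-(Q * z ^ 2))
    rw [div_mul_eq_mul_div, eq_div_iff (by positivity)]
    have h7 : cexp (-(Q * z ^ 2)) ^ 2 ≠ 0 := pow_ne_zero _ h6
    refine mul_left_cancel₀ h7 ?_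
    linear_combination h

end Pool.Agent.N139.G00
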